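import Mathlib

set_option autoImplicit false

open Finset

namespace Pool.Agent.H723.QR

/-- extension of an independent set by elements of another one -/
theorem sb_ext {α : Type} [DecidableEq α] (Ind : Finset α → Prop)
    (hex : ∀ E₁ E₂ : Finset α, Ind E₁ → Ind E₂ → #E₁ < #E₂ →
      ∃ i ∈ E₂, i ∉ E₁ ∧ Ind (insert i E₁)) :
    ∀ (n : ℕ) (A E : Finset α), #E - #A = n → Ind A → Ind E → #A ≤ #E →
      ∃ B, A ⊆ B ∧ B ⊆ A ∪ E ∧ Ind B ∧ #B = #E := by
  intro n
  induction n with
  | zero =>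
    intro A E hn hA hE hle
    exact ⟨A, Subset.refl _, subset_union_left, hA, by omega⟩
  | succ n ih =>
    intro A E hn hA hE hle
    obtain ⟨i, hi, hiA, hI⟩ := hex A E hA hE (by omega)
    have hc : #(insert i A) = #A + 1 := card_insert_of_notMem hiA
    obtain ⟨B, h1, h2, h3, h4⟩ := ih (insert i A) E (by omega) hI hE (by omega)
    refine ⟨B, (subset_insert i A).trans h1, fun x hx => ?_, h3, h4⟩
    rcases mem_union.1 (h2 hx) with h | h
    · rcases mem_insert.1 h with rfl | h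
      · exact mem_union_right _ hi
      · exact mem_union_left _ h
    · exact mem_union_right _ h

/-- the greedy basis -/
theorem sb_greedy {α : Type} [DecidableEq α] [Fintype α] (Ind : Finset α → Prop)
    (hsub : ∀ E F : Finset α, Ind F → E ⊆ F → Ind E)
    (hex : ∀ E₁ E₂ : Finset α, Ind E₁ → Ind E₂ → #E₁ < #E₂ →
      ∃ i ∈ E₂, i ∉ E₁ ∧ Ind (insert i E₁)) (r : ℕ) (hmax : ∀ E, Ind E → #E ≤ r)
    (hB : ∃ E, Ind E ∧ #E = r) (w : α → ℕ) :
    ∃ E, Ind E ∧ #E = r ∧ ∀ (c : ℕ) (F : Finset α), Ind F → (∀ i ∈ F, w i ≤ c) →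
      #F ≤ #(E.filter fun i => w i ≤ c) := by
  classical
  obtain ⟨E', hE'⟩ := hB
  obtain ⟨E, hEm, hmin⟩ := Finset.exists_min_image
    ((Finset.univ : Finset (Finset α)).filter fun E => Ind E ∧ #E = r) (fun E => ∑ i ∈ E, w i)
    ⟨E', mem_filter.2 ⟨mem_univ _, hE'⟩⟩
  obtain ⟨hE, hEr⟩ := (mem_filter.1 hEm).2
  refine ⟨E, hE, hEr, fun c F hF hFc => ?_⟩
  by_contra hcon
  push Not at hcon
  set A0 := E.filter fun i => w i ≤ c with hA0
  have hA0E : A0 ⊆ E := filter_subset _ _
  obtain ⟨i, hiF, hiA, hI⟩ := hex A0 F (hsub _ _ hE hA0E) hF hcon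
  have hiE : i ∉ E := fun h => hiA (mem_filter.2 ⟨h, hFc i hiF⟩)
  obtain ⟨B, h1, h2, h3, h4⟩ := sb_ext Ind hex _ (insert i A0) E rfl hI hE (by
    rw [hEr]
    exact hmax _ hI)
  have hBi : B ⊆ insert i E := by
    intro x hx
    rcases mem_union.1 (h2 hx) with h | h
    · rcases mem_insert.1 h with rfl | h
      · exact mem_insert_self _ _
      · exact mem_insert_of_mem (hA0E h)
    · exact mem_insert_of_mem h
  have hs1 : ∑ x ∈ insert i E, w x = w i + ∑ x ∈ E, w x := sum_insert hiE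
  have hs2 : ∑ x ∈ insert i E \ B, w x + ∑ x ∈ B, w x = ∑ x ∈ insert i E, w x :=
    sum_sdiff hBi
  have hcard : #(insert i E \ B) = 1 := by
    rw [card_sdiff_of_subset hBi, card_insert_of_notMem hiE, h4]
    omega
  obtain ⟨j, hj⟩ := card_eq_one.1 hcard
  have hjm : j ∈ insert i E \ B := by rw [hj]; exact mem_singleton_self j
  obtain ⟨hj1, hj2⟩ := mem_sdiff.1 hjm
  have hwj : w i < w j := by
    have hji : j ≠ i := by
      rintro rfl
      exact hj2 (h1 (mem_insert_self _ _))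
    have hjE : j ∈ E := (mem_insert.1 hj1).resolve_left hji
    have hjA : ¬ w j ≤ c := fun h => hj2 (h1 (mem_insert_of_mem (mem_filter.2 ⟨hjE, h⟩)))
    have := hFc i hiF
    omega
  have hmB : ∑ x ∈ E, w x ≤ ∑ x ∈ B, w x :=
    hmin B (mem_filter.2 ⟨mem_univ _, h3, h4.trans hEr⟩)
  rw [hj, sum_singleton] at hs2
  omega

/-- moving all elements to the left -/
theorem sb_prod {m : ℕ} (s : ℕ) (S₀ S₁ : Finset (Fin m)) (h0 : #S₀ = s) (h1 : #S₁ = s)
    (hlt : ∀ t : Fin m, #(S₀.filter fun i => i ≤ t) ≤ #(S₁.filter fun i => i < t))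
    (d : Fin m → ℝ) (hd : ∀ i, 0 < d i) (ω : ℝ) (hdω : ∀ i j, i < j → d j ≤ ω * d i) :
    ∏ i ∈ S₀, d i ≤ ω ^ s * ∏ i ∈ S₁, d i := by
  let a := S₀.orderEmbOfFin h0
  let b := S₁.orderEmbOfFin h1
  have hab : ∀ j, b j < a j := by
    intro j
    by_contra hcon
    rw [not_lt] at hcon
    have c1 : (j : ℕ) + 1 ≤ #(S₀.filter fun i => i ≤ a j) := by
      have e1 : (Finset.Iic j).image a ⊆ S₀.filter fun i => i ≤ a j := by
        intro x hx
        obtain ⟨y, hy, rfl⟩ := mem_image.1 hx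
        exact mem_filter.2 ⟨orderEmbOfFin_mem _ _ _, a.monotone (Finset.mem_Iic.1 hy)⟩
      have e2 := card_le_card e1
      rw [card_image_of_injective _ a.injective, Fin.card_Iic] at e2
      exact e2
    have c2 : #(S₁.filter fun i => i < a j) ≤ (j : ℕ) := by
      have e1 : (S₁.filter fun i => i < a j) ⊆ (Finset.Iio j).image b := by
        intro x hx
        obtain ⟨hx1, hx2⟩ := mem_filter.1 hx
        have hx3 : x ∈ Set.range b := by
          show x ∈ Set.range (S₁.orderEmbOfFin h1)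
          rw [range_orderEmbOfFin]
          exact hx1
        obtain ⟨y, rfl⟩ := hx3
        refine mem_image.2 ⟨y, Finset.mem_Iio.2 ?_, rfl⟩
        exact b.lt_iff_lt.1 (lt_of_lt_of_le hx2 hcon)
      have e2 := card_le_card e1
      rw [card_image_of_injective _ b.injective, Fin.card_Iio] at e2
      exact e2
    have := hlt (a j)
    omega
  have p0 : ∏ i ∈ S₀, d i = ∏ j : Fin s, d (a j) := by
    have e1 : S₀ = (Finset.univ : Finset (Fin s)).map a.toEmbedding :=
      (map_orderEmbOfFin_univ S₀ h0).symm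
    conv_lhs => rw [e1]
    rw [prod_map]
    rfl
  have p1 : ∏ i ∈ S₁, d i = ∏ j : Fin s, d (b j) := by
    have e1 : S₁ = (Finset.univ : Finset (Fin s)).map b.toEmbedding :=
      (map_orderEmbOfFin_univ S₁ h1).symm
    conv_lhs => rw [e1]
    rw [prod_map]
    rfl
  rw [p0, p1]
  calc ∏ j : Fin s, d (a j) ≤ ∏ j : Fin s, (ω * d (b j)) :=
        prod_le_prod (fun j _ => (hd _).le) (fun j _ => hdω _ _ (hab j))
    _ = ω ^ s * ∏ j : Fin s, d (b j) := by
        rw [prod_mul_distrib, prod_const, card_univ, Fintype.card_fin]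

/-- In a matroid without loops on `{0, …, m - 1}`, of corank `s`, there are two bases such that the
complement of the second one is obtained from the complement of the first one by moving each of the
`s` elements at least one step to the left. -/
theorem shift_bases {m : ℕ} (Ind : Finset (Fin m) → Prop) (h0 : Ind ∅)
    (hsub : ∀ E F : Finset (Fin m), Ind F → E ⊆ F → Ind E)
    (hex : ∀ E₁ E₂ : Finset (Fin m), Ind E₁ → Ind E₂ → #E₁ < #E₂ →
      ∃ i ∈ E₂, i ∉ E₁ ∧ Ind (insert i E₁))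
    (hloop : ∀ i, Ind {i}) (s : ℕ) (hmax : ∀ E, Ind E → #E + s ≤ m)
    (hB : ∃ E, Ind E ∧ #E + s = m) (d : Fin m → ℝ) (hd : ∀ i, 0 < d i) (ω : ℝ) (hω : 0 < ω)
    (hω1 : ω ≤ 1) (hdω : ∀ i j, i < j → d j ≤ ω * d i) :
    ∃ E₀ E₁ : Finset (Fin m), Ind E₀ ∧ Ind E₁ ∧ #E₀ + s = m ∧ #E₁ + s = m ∧
      ∏ i ∈ E₀ᶜ, d i ≤ ω ^ s * ∏ i ∈ E₁ᶜ, d i := by
  have hmax' : ∀ E, Ind E → #E ≤ m - s := fun E hE => by have := hmax E hE; omega
  obtain ⟨E, hE, hEs⟩ := hB
  have hB' : ∃ E, Ind E ∧ #E = m - s := ⟨E, hE, by omega⟩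
  obtain ⟨E₀, hE₀, hc₀, hg₀⟩ := sb_greedy Ind hsub hex (m - s) hmax' hB' (fun i => (i : ℕ))
  obtain ⟨E₁, hE₁, hc₁, hg₁⟩ := sb_greedy Ind hsub hex (m - s) hmax' hB'
    (fun i => m - (i : ℕ))
  have hsm : s ≤ m := by omega
  refine ⟨E₀, E₁, hE₀, hE₁, by omega, by omega, ?_⟩
  have hS0 : #E₀ᶜ = s := by
    rw [card_compl, Fintype.card_fin]
    omega
  have hS1 : #E₁ᶜ = s := by
    rw [card_compl, Fintype.card_fin]
    omega
  refine sb_prod s E₀ᶜ E₁ᶜ hS0 hS1 (fun t => ?_) d hd ω hdω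
  -- a basis which contains `t`
  obtain ⟨B, hB1, -, hB3, hB4⟩ := sb_ext Ind hex _ {t} E rfl (hloop t) hE (by
    have := hmax _ (hloop t)
    rw [card_singleton] at this ⊢
    omega)
  have htB : t ∈ B := hB1 (mem_singleton_self t)
  have f1 : #(B.filter fun i => i ≤ t) ≤ #(E₀.filter fun i => i ≤ t) :=
    hg₀ t (B.filter fun i => i ≤ t) (hsub _ _ hB3 (filter_subset _ _))
      (fun i hi => (mem_filter.1 hi).2)
  have f2 : #(B.filter fun i => t ≤ i) ≤ #(E₁.filter fun i => t ≤ i) := by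
    have e1 := hg₁ (m - (t : ℕ)) (B.filter fun i => t ≤ i) (hsub _ _ hB3 (filter_subset _ _))
      (fun i hi => by
        have : (t : ℕ) ≤ i := (mem_filter.1 hi).2
        show m - (i : ℕ) ≤ m - (t : ℕ)
        omega)
    have e2 : (E₁.filter fun i : Fin m => m - (i : ℕ) ≤ m - (t : ℕ)) =
        E₁.filter fun i => t ≤ i := by
      refine filter_congr fun i _ => ?_
      have h1 := i.2
      have h2 := t.2
      rw [Fin.le_def]
      omega
    rw [e2] at e1
    exact e1
  have f3 : #(B.filter fun i => i ≤ t) + #(B.filter fun i => t ≤ i) = #B + 1 := by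
    rw [← card_union_add_card_inter]
    congr 1
    · congr 1
      ext x
      simp only [mem_union, mem_filter]
      constructor
      · rintro (h | h) <;> exact h.1
      · intro h
        rcases le_total x t with h1 | h1
        · exact Or.inl ⟨h, h1⟩
        · exact Or.inr ⟨h, h1⟩
    · rw [card_eq_one]
      refine ⟨t, ?_⟩
      ext x
      simp only [mem_inter, mem_filter, mem_singleton]
      constructor
      · rintro ⟨h1, h2⟩
        exact le_antisymm h1.2 h2.2
      · rintro rfl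
        exact ⟨⟨htB, le_rfl⟩, ⟨htB, le_rfl⟩⟩
  have g0 : #(E₀ᶜ.filter fun i => i ≤ t) + #(E₀.filter fun i => i ≤ t) = (t : ℕ) + 1 := by
    rw [← card_union_of_disjoint (disjoint_filter_filter disjoint_compl_left), ← filter_union,
      union_comm, union_compl]
    have : (Finset.univ.filter fun i : Fin m => i ≤ t) = Finset.Iic t := by
      ext x
      simp
    rw [this, Fin.card_Iic]
  have g1 : #(E₁ᶜ.filter fun i => i < t) + #(E₁.filter fun i => i < t) = (t : ℕ) := by
    rw [← card_union_of_disjoint (disjoint_filter_filter disjoint_compl_left), ← filter_union,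
      union_comm, union_compl]
    have : (Finset.univ.filter fun i : Fin m => i < t) = Finset.Iio t := by
      ext x
      simp
    rw [this, Fin.card_Iio]
  have g2 : #(E₁.filter fun i => i < t) + #(E₁.filter fun i => t ≤ i) = #E₁ := by
    have e1 : (E₁.filter fun i => t ≤ i) = E₁.filter fun i => ¬ i < t :=
      filter_congr fun i _ => not_lt.symm
    rw [e1]
    exact card_filter_add_card_filter_not _
  omega

end Pool.Agent.H723.QR
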