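import Pool.Agent.H723.PT.Ineq

set_option autoImplicit false

open Finset

namespace Pool.Agent.H723.QR

open Pool.Agent.H393R2.RothNS Pool.Agent.H723.PT

variable {m : ℕ}

/-- the common part, with boxes of degrees `M * t * d i` -/
theorem count_core3 {x : Fin m → ℚ} {adm : Zm m → Prop} {d : Fin m → ℕ} {g : ℕ}
    (hadm : ∀ G, adm G → (∀ a ∈ G.support, ∀ i, a i ≤ d i) ∧ l1 G ≤ g)
    {p : Ideal (Pm m)} (hp : p.IsPrime) (hpx : p ≤ Mx x) (ε : ℝ)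
    (hJe : ∀ G, adm G → toQ G ∈ Je p d ε) (s : ℕ) (I : Ideal (Rx x)) (hI : Ch x adm s I)
    (S : Finset (Fin m)) (gg : Fin m → Zm m) (hg1 : ∀ i ∈ S, toQ (gg i) ∈ p)
    (hg2 : ∀ i ∈ S, DD (Finsupp.single i 1) (toQ (gg i)) ∉ p)
    (hg3 : ∀ i ∈ S, ∀ j ∈ S, j ≠ i → j ∉ (gg i).vars)
    (Cs : Finset (Fin m →₀ ℕ)) (hC : ∀ c ∈ Cs, c.support ⊆ S ∧ wt d c < ε) (M : ℕ) :
    ∃ D : ℕ, 1 ≤ D ∧ ∀ (t h : ℕ), 1 ≤ h → ∀ (E : Finset (Fin m)) (Ψ : Finset (Zm m)),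
      (∀ ψ ∈ Ψ, ψ ∈ Bx (fun i => if i ∈ E then M * t * d i else 0) h) →
      (∀ ψ ∈ Ψ, ∀ ψ' ∈ Ψ, ψ ≠ ψ' → toQ ψ - toQ ψ' ∉ p) →
      #Ψ ^ (#Cs * t ^ s) ≤
        ((2 * g + 1) ^ (s * t) * (D * h)) ^ (∏ i, ((s + M) * d i * t + (D + 1))) := by
  classical
  obtain ⟨D, hD⟩ := nu_Je_ge p hp d ε S gg hg1 hg2 hg3 Cs hC
  refine ⟨D + 1, by omega, ?_⟩
  intro t h hh E Ψ hΨ hΨ2
  have h1 := hD (fun i => if i ∈ E then M * t * d i else 0) h hh Ψ hΨ hΨ2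
  have hle : pb x I ≤ Je p d ε := pb_map_Je hp hpx d ε I (ch_le_map hJe s I hI)
  have h2 : nu (Je p d ε) (fun i => (if i ∈ E then M * t * d i else 0) + D) (D * h) ≤
      nu (pb x I) (fun i => M * t * d i + (D + 1)) ((D + 1) * h) := by
    apply nu_mono hle
    · intro i
      split_ifs <;> omega
    · exact Nat.mul_le_mul_right _ (by omega)
  have h3 := ch_count hadm s I hI (fun i => M * t * d i + (D + 1)) ((D + 1) * h)
    (Nat.one_le_iff_ne_zero.mpr (by positivity)) t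
  calc #Ψ ^ (#Cs * t ^ s) = (#Ψ ^ #Cs) ^ (t ^ s) := by rw [pow_mul]
    _ ≤ (nu (pb x I) (fun i => M * t * d i + (D + 1)) ((D + 1) * h)) ^ (t ^ s) :=
        Nat.pow_le_pow_left (h1.trans h2) _
    _ ≤ _ := h3
    _ = _ := by
        congr 1
        apply Finset.prod_congr rfl
        intro i _
        ring

/-- the numerical inequality -/
theorem pow_num (m s e : ℕ) (hm : 0 < m) (he : e + s = m) :
    ((s : ℝ) + m) ^ m ≤ (3 * m : ℝ) ^ s * (m : ℝ) ^ e := by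
  have hm0 : (0 : ℝ) < m := by exact_mod_cast hm
  have h1 : (s : ℝ) / m + 1 ≤ Real.exp ((s : ℝ) / m) := Real.add_one_le_exp _
  have h2 : ((s : ℝ) / m + 1) ^ m ≤ (Real.exp ((s : ℝ) / m)) ^ m :=
    pow_le_pow_left₀ (by positivity) h1 m
  have h3 : (Real.exp ((s : ℝ) / m)) ^ m = Real.exp s := by
    rw [← Real.exp_nat_mul]
    congr 1
    field_simp
  have h4 : Real.exp (s : ℝ) ≤ 3 ^ s := by
    have h5 : Real.exp (s : ℝ) = (Real.exp 1) ^ s := by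
      rw [← Real.exp_nat_mul, mul_one]
    rw [h5]
    apply pow_le_pow_left₀ (Real.exp_pos 1).le
    have := Real.exp_one_lt_d9
    linarith
  have h6 : ((s : ℝ) / m + 1) ^ m ≤ 3 ^ s := h2.trans (h3.le.trans h4)
  have h7 : ((s : ℝ) + m) ^ m = (m : ℝ) ^ m * ((s : ℝ) / m + 1) ^ m := by
    rw [← mul_pow]
    congr 1
    field_simp
  have h8 : (m : ℝ) ^ m = (m : ℝ) ^ e * (m : ℝ) ^ s := by
    rw [← pow_add, he]
  calc ((s : ℝ) + m) ^ m = (m : ℝ) ^ m * ((s : ℝ) / m + 1) ^ m := h7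
    _ ≤ (m : ℝ) ^ m * 3 ^ s := mul_le_mul_of_nonneg_left h6 (by positivity)
    _ = (3 * m : ℝ) ^ s * (m : ℝ) ^ e := by
        rw [h8, mul_pow]
        ring

/-- **The geometric inequality, with the sharper constant `(3 m) ^ s`.** -/
theorem geo_ineq3 {x : Fin m → ℚ} {adm : Zm m → Prop} {d : Fin m → ℕ} {g : ℕ}
    (hd0 : ∀ i, 0 < d i)
    (hadm : ∀ G, adm G → (∀ a ∈ G.support, ∀ i, a i ≤ d i) ∧ l1 G ≤ g)
    {p : Ideal (Pm m)} (hp : p.IsPrime) (hpx : p ≤ Mx x) (ε : ℝ) (hε : 0 < ε)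
    (hJe : ∀ G, adm G → toQ G ∈ Je p d ε) (s : ℕ) (I : Ideal (Rx x)) (hI : Ch x adm s I)
    (E₀ E₁ : Finset (Fin m)) (hE0 : Ind p E₀) (hE1 : Ind p E₁) (hc0 : #E₀ + s = m)
    (hc1 : #E₁ + s = m) (htr : tr p = #E₁) (hs : 0 < s) :
    ∏ i ∈ E₁ᶜ, (ε / s * d i) ≤ (3 * m : ℝ) ^ s * ∏ i ∈ E₀ᶜ, (d i : ℝ) := by
  classical
  have hS : #(E₁ᶜ) = s := by
    rw [Finset.card_compl, Fintype.card_fin]; omega
  have hSne : (E₁ᶜ).Nonempty := by rw [← Finset.card_pos, hS]; exact hs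
  obtain ⟨Cs, hC, hCcard⟩ := exists_Cs d hd0 ε hε E₁ᶜ hSne
  rw [hS] at hCcard
  have hgex : ∀ i : Fin m, ∃ gi : Zm m, i ∈ E₁ᶜ →
      toQ gi ∈ p ∧ DD (Finsupp.single i 1) (toQ gi) ∉ p ∧ gi.vars ⊆ insert i E₁ := by
    intro i
    by_cases hi : i ∈ E₁ᶜ
    · rw [Finset.mem_compl] at hi
      have hni : ¬ Ind p (insert i E₁) := by
        intro hcon
        have := card_le_tr hcon
        rw [Finset.card_insert_of_notMem hi] at this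
        omega
      obtain ⟨gi, h1, h2, h3⟩ := exists_g hp E₁ hE1 i hi hni
      exact ⟨gi, fun _ => ⟨h1, h2, h3⟩⟩
    · exact ⟨0, fun h => absurd h hi⟩
  choose gg hgg using hgex
  obtain ⟨D, hD1, hD⟩ := count_core3 hadm hp hpx ε hJe s I hI E₁ᶜ gg (fun i hi => (hgg i hi).1)
    (fun i hi => (hgg i hi).2.1) (fun i hi j hj hji hcon => by
      have h1 := (hgg i hi).2.2 hcon
      rw [Finset.mem_insert] at h1
      rcases h1 with h1 | h1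
      · exact hji h1
      · exact (Finset.mem_compl.mp hj) h1) Cs hC m
  have key : ∀ t : ℕ, 1 ≤ t →
      ((#Cs : ℝ) * ∏ e ∈ E₀, ((m * d e : ℕ) : ℝ)) * (t : ℝ) ^ m ≤
        ∏ i : Fin m, ((((s + m) * d i : ℕ) : ℝ) * t + ((D + 1 : ℕ) : ℝ)) := by
    intro t ht
    have h1 : ∀ h : ℕ, 1 ≤ h →
        h ^ ((∏ e ∈ E₀, (m * t * d e + 1)) * (#Cs * t ^ s)) ≤
          (((2 * g + 1) ^ (s * t) * D) * h) ^ (∏ i, ((s + m) * d i * t + (D + 1))) := by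
      intro h hh
      obtain ⟨Ψ, hΨ1, hΨ2, hΨ3⟩ := psi_ind p E₀ hE0 (fun e => m * t * d e) h
      have h2 := hD t h hh E₀ Ψ hΨ1 hΨ2
      rw [hΨ3, ← pow_mul, ← mul_assoc ((2 * g + 1) ^ (s * t))] at h2
      exact h2
    have h2 := le_of_pow_le _ _ _ h1
    have h3 : (#Cs * ∏ e ∈ E₀, (m * d e)) * t ^ m ≤
        (∏ e ∈ E₀, (m * t * d e + 1)) * (#Cs * t ^ s) := by
      have h4 : t ^ #E₀ * ∏ e ∈ E₀, (m * d e) ≤ ∏ e ∈ E₀, (m * t * d e + 1) := by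
        rw [← Finset.prod_const, ← Finset.prod_mul_distrib]
        apply Finset.prod_le_prod'
        intro e _
        have : t * (m * d e) = m * t * d e := by ring
        omega
      have hpw : t ^ m = t ^ #E₀ * t ^ s := by rw [← pow_add, hc0]
      calc (#Cs * ∏ e ∈ E₀, (m * d e)) * t ^ m
          = (t ^ #E₀ * ∏ e ∈ E₀, (m * d e)) * (#Cs * t ^ s) := by
            rw [hpw]; ring
        _ ≤ _ := Nat.mul_le_mul_right _ h4
    have h5 := h3.trans h2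
    exact_mod_cast h5
  have h2 := lead_le m _ _ _ (fun i => by positivity) (fun i => by positivity) key
  have h3 : ∏ i : Fin m, (((s + m) * d i : ℕ) : ℝ) = (s + m : ℝ) ^ m * ∏ i, (d i : ℝ) := by
    push_cast
    rw [Finset.prod_mul_distrib, Finset.prod_const, Finset.card_univ, Fintype.card_fin]
  have h3' : ∏ e ∈ E₀, ((m * d e : ℕ) : ℝ) = (m : ℝ) ^ #E₀ * ∏ e ∈ E₀, (d e : ℝ) := by
    push_cast
    rw [Finset.prod_mul_distrib, Finset.prod_const]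
  rw [h3, h3', prod_split E₀ (fun i => (d i : ℝ))] at h2
  have hm : 0 < m := by omega
  have hnum := pow_num m s (#E₀) hm hc0
  have hpos : 0 < (m : ℝ) ^ #E₀ * ∏ e ∈ E₀, (d e : ℝ) := by
    have h4 : 0 < ∏ e ∈ E₀, (d e : ℝ) :=
      Finset.prod_pos (fun e _ => by exact_mod_cast hd0 e)
    have h5 : (0 : ℝ) < m := by exact_mod_cast hm
    positivity
  have h4 : (#Cs : ℝ) ≤ (3 * m : ℝ) ^ s * ∏ i ∈ E₀ᶜ, (d i : ℝ) := by
    have hnn : 0 ≤ (∏ e ∈ E₀, (d e : ℝ)) * ∏ i ∈ E₀ᶜ, (d i : ℝ) :=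
      mul_nonneg (Finset.prod_nonneg fun _ _ => Nat.cast_nonneg _)
        (Finset.prod_nonneg fun _ _ => Nat.cast_nonneg _)
    have h5 : (#Cs : ℝ) * ((m : ℝ) ^ #E₀ * ∏ e ∈ E₀, (d e : ℝ)) ≤
        ((3 * m : ℝ) ^ s * ∏ i ∈ E₀ᶜ, (d i : ℝ)) * ((m : ℝ) ^ #E₀ * ∏ e ∈ E₀, (d e : ℝ)) := by
      calc _ ≤ _ := h2
        _ ≤ ((3 * m : ℝ) ^ s * (m : ℝ) ^ #E₀) *
            ((∏ e ∈ E₀, (d e : ℝ)) * ∏ i ∈ E₀ᶜ, (d i : ℝ)) :=
            mul_le_mul_of_nonneg_right hnum hnn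
        _ = _ := by ring
    exact le_of_mul_le_mul_right h5 hpos
  exact hCcard.trans h4

end Pool.Agent.H723.QR
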