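import Pool.Agent.H723.PT.Main
import Pool.Agent.H723.QR.V1
import Pool.Agent.H723.QR.V2

set_option autoImplicit false

open Finset

namespace Pool.Agent.H723.QR

open Pool.Agent.H393R2.RothNS Pool.Agent.H723.QS Pool.Agent.H723.PT

/-- Roth's lemma with two parameters: one (`ω₁`) for the quotients of the degrees, one (`ω₂`) for
the heights. -/
def RothE2 (m : ℕ) (σ ω₁ ω₂ : ℝ) : Prop :=
    ∀ (r : Fin m → ℕ) (R : ℝ), 0 < R → (∀ h, 0 < r h) →
      (∀ i j : Fin m, i < j → (r i : ℝ) ≤ ω₁ * r j) → (∀ h, (r h : ℝ) ≤ ω₂ * R) →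
      ∀ (p q : Fin m → ℤ), (∀ h, IsCoprime (p h) (q h)) → (∀ h, q h ≠ 0) →
        (∀ h, R ≤ r h * Real.log (max |(p h : ℝ)| |(q h : ℝ)|)) →
        ∀ P : MvPolynomial (Fin m) ℤ, P ≠ 0 → (∀ a ∈ P.support, ∀ h, a h ≤ r h) →
          (∀ a, |((MvPolynomial.coeff a P : ℤ) : ℝ)| ≤ Real.exp (ω₂ * R)) →
          ∃ κ : Fin m →₀ ℕ, wt r κ < σ ∧
            MvPolynomial.eval (fun h => (p h : ℚ) / q h)
              (DD κ (MvPolynomial.map (Int.castRingHom ℚ) P)) ≠ 0

/-- the quotient of the degrees -/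
noncomputable def om1 (m : ℕ) (σ : ℝ) : ℝ := σ / (4 * ((m : ℝ) + 1) ^ 3)

theorem om1_pos (m : ℕ) (σ : ℝ) (hσ : 0 < σ) : 0 < om1 m σ := by
  unfold om1; positivity

theorem om1_le_one (m : ℕ) (σ : ℝ) (hσ1 : σ ≤ 1) : om1 m σ ≤ 1 := by
  unfold om1
  rw [div_le_one (by positivity)]
  have h1 : (1 : ℝ) ≤ ((m : ℝ) + 1) ^ 3 := one_le_pow₀ (by linarith [(Nat.cast_nonneg m : (0:ℝ) ≤ m)])
  linarith

/-- the exchange argument: if all the coordinates are not constant, there is a contradiction -/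
theorem exists_loop {m : ℕ} (hm : 0 < m) (σ : ℝ) (hσ : 0 < σ) (hσ1 : σ ≤ 1) {I : Ideal (Pm m)}
    (hIp : I.IsPrime) (r : Fin m → ℕ) (hr : ∀ h, 0 < r h)
    (hri : ∀ i j : Fin m, i < j → (r i : ℝ) ≤ om1 m σ * r j) (s : ℕ) (hs0 : 0 < s) (hsm : s ≤ m)
    (htr : tr I + s = m) (E : Finset (Fin m)) (hE : Ind I E) (hEs : #E + s = m)
    (hgeo : ∀ E₀ E₁ : Finset (Fin m), Ind I E₀ → Ind I E₁ → #E₀ + s = m → #E₁ + s = m →
      (σ / (m + 1) / s) ^ s * ∏ i ∈ E₁ᶜ, (r i : ℝ) ≤ (3 * m : ℝ) ^ s * ∏ i ∈ E₀ᶜ, (r i : ℝ)) :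
    ∃ i₀, ¬ Ind I {i₀} := by
  classical
  by_contra hall
  push Not at hall
  have hrr : ∀ S : Finset (Fin m), (S.map Fin.revPerm.toEmbedding).map Fin.revPerm.toEmbedding = S := by
    intro S
    ext i
    simp only [Finset.mem_map_equiv]
    simp
  have hprod : ∀ S : Finset (Fin m), ∏ i ∈ Sᶜ, (r (Fin.rev i) : ℝ) =
      ∏ i ∈ (S.map Fin.revPerm.toEmbedding)ᶜ, (r i : ℝ) := by
    intro S
    apply Finset.prod_equiv Fin.revPerm
    · intro i
      simp only [Finset.mem_compl, Finset.mem_map_equiv]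
      simp
    · intro i _
      simp
  obtain ⟨E₀, E₁, h0, h1, hc0, hc1, hpr⟩ := shift_bases (m := m)
    (fun S => Ind I (S.map Fin.revPerm.toEmbedding))
    (by simpa using ind_empty hIp.ne_top)
    (fun S T hT hST => Ind.mono hT (Finset.map_subset_map.mpr hST))
    (by
      intro S T hS hT hc
      obtain ⟨i, hi1, hi2, hi3⟩ := ind_exchange hIp (S.map Fin.revPerm.toEmbedding)
        (T.map Fin.revPerm.toEmbedding) hS hT (by rw [Finset.card_map, Finset.card_map]; exact hc)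
      refine ⟨Fin.rev i, ?_, ?_, ?_⟩
      · rw [Finset.mem_map_equiv] at hi1; simpa using hi1
      · rw [Finset.mem_map_equiv] at hi2; simpa using hi2
      · rw [Finset.map_insert]
        simpa using hi3)
    (fun i => by simpa using hall (Fin.rev i)) s
    (fun S hS => by
      have := card_le_tr hS
      rw [Finset.card_map] at this
      omega)
    ⟨E.map Fin.revPerm.toEmbedding, by simpa only [hrr] using hE, by rw [Finset.card_map]; exact hEs⟩
    (fun i => (r (Fin.rev i) : ℝ)) (fun i => by exact_mod_cast hr _) (om1 m σ) (om1_pos m σ hσ)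
    (om1_le_one m σ hσ1) (fun i j hij => hri _ _ (Fin.rev_lt_rev.mpr hij))
  rw [hprod, hprod] at hpr
  have hg := hgeo _ _ h0 h1 (by rw [Finset.card_map]; exact hc0) (by rw [Finset.card_map]; exact hc1)
  have hm0 : (0 : ℝ) < m := by exact_mod_cast hm
  have hm1 : (1 : ℝ) ≤ m := by exact_mod_cast hm
  have hs0' : (0 : ℝ) < s := by exact_mod_cast hs0
  have hsmR : (s : ℝ) ≤ m := by exact_mod_cast hsm
  have hX : 0 < ∏ i ∈ (E₁.map Fin.revPerm.toEmbedding)ᶜ, (r i : ℝ) :=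
    Finset.prod_pos (fun i _ => by exact_mod_cast hr i)
  have h2 : (σ / (m + 1) / s) ^ s * ∏ i ∈ (E₁.map Fin.revPerm.toEmbedding)ᶜ, (r i : ℝ) ≤
      ((3 * m : ℝ) * om1 m σ) ^ s * ∏ i ∈ (E₁.map Fin.revPerm.toEmbedding)ᶜ, (r i : ℝ) := by
    rw [mul_pow, mul_assoc]
    exact hg.trans (mul_le_mul_of_nonneg_left hpr (by positivity))
  have h3 := le_of_mul_le_mul_right h2 hX
  have h4 : (3 * m : ℝ) * om1 m σ < σ / (m + 1) / s := by
    unfold om1
    rw [div_div, lt_div_iff₀ (by positivity)]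
    have e1 : 3 * (m : ℝ) * (σ / (4 * ((m : ℝ) + 1) ^ 3)) * (((m : ℝ) + 1) * s) =
        σ * ((3 * m * s) / (4 * ((m : ℝ) + 1) ^ 2)) := by field_simp
    rw [e1]
    have e2 : (3 * (m : ℝ) * s) / (4 * ((m : ℝ) + 1) ^ 2) < 1 := by
      rw [div_lt_one (by positivity)]
      nlinarith
    nlinarith
  have h5 : ((3 * m : ℝ) * om1 m σ) ^ s < (σ / (m + 1) / s) ^ s :=
    pow_lt_pow_left₀ h4 (by have := om1_pos m σ hσ; positivity) (by omega)
  linarith

/-- **Roth's lemma with two parameters**, by the product theorem. -/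
theorem rothE3 (m : ℕ) (hm : 0 < m) (σ : ℝ) (hσ : 0 < σ) (hσ1 : σ ≤ 1) :
    RothE2 m σ (om1 m σ) (om2 m σ) := by
  classical
  intro r R hR hr hri hrR p q hpq hq hlog P hP hdeg hco
  by_contra hcon
  push Not at hcon
  set x : Fin m → ℚ := fun h => (p h : ℚ) / q h with hx
  have hom := om2_pos m σ hσ
  have htoQ : MvPolynomial.map (Int.castRingHom ℚ) P = toQ P := rfl
  rw [htoQ] at hcon
  have hPQ0 : toQ P ≠ 0 := by
    intro h
    apply hP
    exact (MvPolynomial.map_injective _ (RingHom.injective_int (Int.castRingHom ℚ)))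
      (by rw [htoQ, h, map_zero])
  have hPQdeg : ∀ a ∈ (toQ P).support, ∀ h, a h ≤ r h := by
    intro a ha h
    exact hdeg a (MvPolynomial.support_map_subset _ _ ha) h
  have hDDP : ∀ κ, toQ (DD κ P) = DD κ (toQ P) := fun κ => DD_map _ κ P
  set ε : ℝ := σ / (m + 1) with hε
  have hε0 : 0 < ε := by positivity
  have hmε : ((m : ℝ) + 1) * ε = σ := by rw [hε]; field_simp
  -- the predicate
  let Q : ℕ → ℕ → Prop := fun k e => ∃ I : Ideal (Pm m), I.IsPrime ∧ I ≤ Mx x ∧ tr I = e ∧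
    ∀ κ, wt r κ < k * ε → DD κ (toQ P) ∈ I
  have hQx : ∀ k, k ≤ m + 1 → Q k (tr (Mx x)) := by
    intro k hk
    refine ⟨Mx x, inferInstance, le_rfl, rfl, ?_⟩
    intro κ hκ
    rw [mem_Mx]
    apply hcon κ
    refine lt_of_lt_of_le hκ ?_
    rw [← hmε]
    apply mul_le_mul_of_nonneg_right _ hε0.le
    exact_mod_cast hk
  let e : ℕ → ℕ := fun k => Nat.findGreatest (Q k) m
  have he : ∀ k, k ≤ m + 1 → Q k (e k) := fun k hk =>
    Nat.findGreatest_spec (tr_le _) (hQx k hk)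
  have hemax : ∀ (k : ℕ) (I : Ideal (Pm m)), I.IsPrime → I ≤ Mx x →
      (∀ κ, wt r κ < k * ε → DD κ (toQ P) ∈ I) → tr I ≤ e k := fun k I h1 h2 h3 =>
    Nat.le_findGreatest (tr_le _) ⟨I, h1, h2, rfl, h3⟩
  have heanti : ∀ k, k + 1 ≤ m + 1 → e (k + 1) ≤ e k := by
    intro k hk
    obtain ⟨I, h1, h2, h3, h4⟩ := he (k + 1) hk
    rw [← h3]
    apply hemax k I h1 h2
    intro κ hκ
    apply h4
    refine lt_of_lt_of_le hκ ?_
    apply mul_le_mul_of_nonneg_right _ hε0.le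
    push_cast; linarith
  have he1 : e 1 < m := by
    obtain ⟨I, h1, h2, h3, h4⟩ := he 1 (by omega)
    rw [← h3]
    have h5 := h4 0 (by simp [wt]; exact hε0)
    rw [DD_zero'] at h5
    exact tr_lt_of_mem h1 h5 hPQ0
  obtain ⟨k, hk1, hkm, hke⟩ : ∃ k, 1 ≤ k ∧ k ≤ m ∧ e (k + 1) = e k := by
    by_contra hno
    push Not at hno
    have h1 : ∀ j, j ≤ m → e (j + 1) + j < m := by
      intro j
      induction j with
      | zero => intro _; simpa using he1
      | succ j ih =>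
        intro hj
        have h2 := ih (by omega)
        have h3 := hno (j + 1) (by omega) hj
        have h4 := heanti (j + 1) (by omega)
        omega
    have := h1 m le_rfl
    omega
  obtain ⟨I, hIp, hIx, hItr, hIJ⟩ := he (k + 1) (by omega)
  rw [hke] at hItr
  have hkle : e k < m := by
    have h1 : ∀ j, 1 ≤ j → j ≤ m + 1 → e j < m := by
      intro j
      induction j with
      | zero => intro h; omega
      | succ j ih =>
        intro _ hj
        rcases Nat.eq_zero_or_pos j with h0 | h0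
        · subst h0; simpa using he1
        · exact (heanti j (by omega)).trans_lt (ih h0 (by omega))
    exact h1 k hk1 (by omega)
  obtain ⟨s, hs⟩ : ∃ s, s = m - e k := ⟨_, rfl⟩
  have hs0 : 0 < s := by omega
  have hsm : s ≤ m := by omega
  have hes : e k + s = m := by omega
  -- the admissible polynomials
  set gR : ℝ := (∏ i, ((r i : ℝ) + 1)) * ((m : ℝ) ^ m * ∏ i, (r i : ℝ)) *
      (2 ^ (∑ i, r i) * ((∏ i, ((r i : ℝ) + 1)) * Real.exp (om2 m σ * R))) with hgR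
  have hgR0 : 0 ≤ gR := by
    rw [hgR]
    have q0 : (0 : ℝ) ≤ ∏ i, ((r i : ℝ) + 1) := Finset.prod_nonneg (fun i _ => by positivity)
    have q1 : (0 : ℝ) ≤ ∏ i, (r i : ℝ) := Finset.prod_nonneg (fun i _ => by positivity)
    positivity
  set g : ℕ := ⌈gR⌉₊ with hg
  have hgle : gR ≤ g := Nat.le_ceil _
  have hglt : (g : ℝ) < gR + 1 := Nat.ceil_lt_add_one hgR0
  let adm : Zm m → Prop := fun G => (∀ a ∈ G.support, ∀ i, a i ≤ r i) ∧ l1 G ≤ g ∧
    toQ G ∈ Je I r ε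
  have hadm : ∀ G, adm G → (∀ a ∈ G.support, ∀ i, a i ≤ r i) ∧ l1 G ≤ g :=
    fun G hG => ⟨hG.1, hG.2.1⟩
  have hJe : ∀ G, adm G → toQ G ∈ Je I r ε := fun G hG => hG.2.2
  let rf : Fin m →₀ ℕ := Finsupp.equivFunOnFinite.symm r
  let K : Finset (Fin m →₀ ℕ) := (Finset.Iic rf).filter (fun κ => wt r κ < k * ε)
  have hKmem : ∀ κ, κ ∈ K ↔ (∀ h, κ h ≤ r h) ∧ wt r κ < k * ε := by
    intro κ
    simp only [K, Finset.mem_filter, Finset.mem_Iic]
    rw [Finsupp.le_def]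
    rfl
  have hKcard : (#K : ℝ) ≤ ∏ i, ((r i : ℝ) + 1) := by
    have h1 : #K ≤ #(Finset.Iic rf) := Finset.card_filter_le _ _
    have h2 : #(Finset.Iic rf) ≤ ∏ i, (r i + 1) := card_Iic_le r
    have h3 : (#K : ℝ) ≤ ((∏ i, (r i + 1) : ℕ) : ℝ) := by exact_mod_cast h1.trans h2
    simpa using h3
  have hl1P : l1 P ≤ (∏ i, ((r i : ℝ) + 1)) * Real.exp (om2 m σ * R) := by
    unfold l1
    have hsub : P.support ⊆ Finset.Iic rf := by
      intro a ha
      rw [Finset.mem_Iic, Finsupp.le_def]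
      exact fun h => hdeg a ha h
    have h2 : #(Finset.Iic rf) ≤ ∏ i, (r i + 1) := card_Iic_le r
    have h3 : (#P.support : ℝ) ≤ ∏ i, ((r i : ℝ) + 1) := by
      have h4 : (#P.support : ℝ) ≤ ((∏ i, (r i + 1) : ℕ) : ℝ) := by
        exact_mod_cast (Finset.card_le_card hsub).trans h2
      simpa using h4
    calc ∑ a ∈ P.support, |((MvPolynomial.coeff a P : ℤ) : ℝ)|
        ≤ ∑ _a ∈ P.support, Real.exp (om2 m σ * R) := Finset.sum_le_sum (fun a _ => hco a)
      _ = #P.support * Real.exp (om2 m σ * R) := by rw [Finset.sum_const, nsmul_eq_mul]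
      _ ≤ _ := mul_le_mul_of_nonneg_right h3 (Real.exp_pos _).le
  have hl1D : ∀ κ, l1 (DD κ P) ≤ 2 ^ (∑ i, r i) * ((∏ i, ((r i : ℝ) + 1)) *
      Real.exp (om2 m σ * R)) := by
    intro κ
    refine (l1_DD κ P (∑ i, r i) (fun a ha => Finset.sum_le_sum (fun i _ => hdeg a ha i))).trans ?_
    exact mul_le_mul_of_nonneg_left hl1P (by positivity)
  have hcomb : ∀ c : (Fin m →₀ ℕ) → ℕ, (∀ κ, c κ ≤ m ^ m * ∏ i, r i) →
      adm (∑ κ ∈ K, (c κ : ℤ) • DD κ P) := by
    intro c hc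
    refine ⟨?_, ?_, ?_⟩
    · intro a ha i
      obtain ⟨κ, hκ, hκa⟩ : ∃ κ ∈ K, a ∈ ((c κ : ℤ) • DD κ P).support := by
        have := MvPolynomial.support_sum ha
        rw [Finset.mem_biUnion] at this
        exact this
      exact DD_support P r hdeg κ a (MvPolynomial.support_smul hκa) i
    · refine (l1_sum K _).trans ?_
      refine le_trans ?_ hgle
      have h1 : ∀ κ ∈ K, l1 ((c κ : ℤ) • DD κ P) ≤ ((m : ℝ) ^ m * ∏ i, (r i : ℝ)) *
          (2 ^ (∑ i, r i) * ((∏ i, ((r i : ℝ) + 1)) * Real.exp (om2 m σ * R))) := by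
        intro κ _
        refine (l1_zsmul_nat _ _).trans ?_
        apply mul_le_mul _ (hl1D κ) (l1_nonneg _) (by positivity)
        exact_mod_cast hc κ
      refine (Finset.sum_le_card_nsmul _ _ _ h1).trans ?_
      rw [nsmul_eq_mul, hgR, mul_assoc (∏ i, ((r i : ℝ) + 1))]
      apply mul_le_mul_of_nonneg_right hKcard
      have q0 : (0 : ℝ) ≤ ∏ i, ((r i : ℝ) + 1) := Finset.prod_nonneg (fun i _ => by positivity)
      have q1 : (0 : ℝ) ≤ ∏ i, (r i : ℝ) := Finset.prod_nonneg (fun i _ => by positivity)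
      positivity
    · rw [toQ_smul_sum]
      apply Ideal.sum_mem
      intro κ hκ
      rw [MvPolynomial.smul_eq_C_mul]
      apply Ideal.mul_mem_left
      rw [mem_Je]
      intro μ hμ
      rw [hDDP, DD_DD, MvPolynomial.smul_eq_C_mul]
      apply Ideal.mul_mem_left
      apply hIJ
      rw [wt_add]
      have h1 := ((hKmem κ).mp hκ).2
      push_cast
      linarith
  obtain ⟨IR, hIR⟩ := sel hr hadm s hsm K (fun κ => DD κ P) (by
      intro κ hκ
      rw [hDDP, mem_Mx]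
      apply hcon κ
      refine lt_of_lt_of_le ((hKmem κ).mp hκ).2 ?_
      rw [← hmε]
      apply mul_le_mul_of_nonneg_right _ hε0.le
      have : (k : ℝ) ≤ m := by exact_mod_cast hkm
      linarith) (by
      intro J hJ hJx htr
      by_contra hno
      push Not at hno
      have h1 : ∀ κ, wt r κ < k * ε → DD κ (toQ P) ∈ J := by
        intro κ hκ
        by_cases hle : ∀ h, κ h ≤ r h
        · rw [← hDDP]
          exact hno κ ((hKmem κ).mpr ⟨hle, hκ⟩)
        · push Not at hle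
          rw [DD_eq_zero (toQ P) r hPQdeg κ hle]
          exact J.zero_mem
      have h2 := hemax k J hJ hJx h1
      omega) hcomb
  obtain ⟨E, hE, hEc⟩ := exists_tr hIp.ne_top
  rw [hItr] at hEc
  have hEs : #E + s = m := by omega
  have htrE : tr I = #E := by rw [hItr, hEc]
  have hprodpos : ∀ S : Finset (Fin m), 0 < ∏ i ∈ S, (r i : ℝ) := fun S =>
    Finset.prod_pos (fun i _ => by exact_mod_cast hr i)
  have hprodε : ∀ S : Finset (Fin m), #S = s → ∏ i ∈ S, (ε / s * (r i : ℝ)) =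
      (ε / s) ^ s * ∏ i ∈ S, (r i : ℝ) := by
    intro S hS
    rw [Finset.prod_mul_distrib, Finset.prod_const, hS]
  have hgeo : ∀ E₀ E₁ : Finset (Fin m), Ind I E₀ → Ind I E₁ → #E₀ + s = m → #E₁ + s = m →
      (ε / s) ^ s * ∏ i ∈ E₁ᶜ, (r i : ℝ) ≤ (3 * m : ℝ) ^ s * ∏ i ∈ E₀ᶜ, (r i : ℝ) := by
    intro E₀ E₁ h0 h1 hc0 hc1
    have := geo_ineq3 hr hadm hIp hIx ε hε0 hJe s IR hIR E₀ E₁ h0 h1 hc0 hc1 (by omega) hs0
    rw [hprodε _ (by rw [Finset.card_compl, Fintype.card_fin]; omega)] at this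
    exact this
  obtain ⟨i₀, hi₀n⟩ := exists_loop hm σ hσ hσ1 hIp r hr hri s hs0 hsm (by rw [hItr]; exact hes)
    E hE hEs hgeo
  have hi₀ : i₀ ∉ E := fun h => hi₀n (Ind.mono hE (by simpa using h))
  have hX := mem_of_not_ind hIp x hIx i₀ hi₀n
  have har := arith_ineq hr hadm hIp hIx ε hε0 hJe s IR hIR E hE hEs htrE i₀ hi₀ (p i₀) (q i₀)
    (hpq i₀) (hq i₀) hX
  have hcompl : #(Eᶜ) = s := by rw [Finset.card_compl, Fintype.card_fin]; omega
  rw [hprodε _ hcompl] at har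
  have hL := num_gam m hm r hr (om2 m σ * R) hrR g (by rw [← hgR]; exact hglt)
  have hnum2 := num_arith m s hm hs0 hsm σ R hσ hσ1 hR (Real.log (2 * g + 1)) hL
  rw [← hε] at hnum2
  have hE0 := hprodpos Eᶜ
  have h1 : (ε / s) ^ s * R ≤ s * Real.log (2 * g + 1) * ((s : ℝ) + 1) ^ m := by
    have hε1 : 0 < (ε / s) ^ s := by
      have : (0 : ℝ) < s := by exact_mod_cast hs0
      positivity
    have h2 : ((ε / s) ^ s * R) * (∏ i ∈ Eᶜ, (r i : ℝ)) ≤
        (s * Real.log (2 * g + 1) * ((s : ℝ) + 1) ^ m) * (∏ i ∈ Eᶜ, (r i : ℝ)) := by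
      calc ((ε / s) ^ s * R) * (∏ i ∈ Eᶜ, (r i : ℝ))
          = ((ε / s) ^ s * ∏ i ∈ Eᶜ, (r i : ℝ)) * R := by ring
        _ ≤ ((ε / s) ^ s * ∏ i ∈ Eᶜ, (r i : ℝ)) *
            (r i₀ * Real.log (max |(p i₀ : ℝ)| |(q i₀ : ℝ)|)) :=
            mul_le_mul_of_nonneg_left (hlog i₀) (by positivity)
        _ ≤ _ := har
        _ = _ := by ring
    exact le_of_mul_le_mul_right h2 hE0
  linarith

end Pool.Agent.H723.QR
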