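import Mathlib
import Pool.Graph.R_seed8.H393R2.Roth
import Pool.Graph.R_seed8.H393R2.Aux2
import Pool.Graph.R_seed8.H393R2.Codim

set_option autoImplicit false

open Finset

namespace Pool.Agent.H723.QR

open Pool.Agent.H393R2 Pool.Agent.H393R2.AuxNS

attribute [local instance] Matrix.seminormedAddCommGroup in
/-- the auxiliary polynomial with a prescribed small exceptional set -/
theorem aux_gen (n : ℕ) (hn : 1 ≤ n) (Y : Fin n) (ξ : ℝ) (hξ : IsIntegral ℤ ξ) :
    ∃ C : ℝ, 1 ≤ C ∧ ∃ Dg : ℕ, 1 ≤ Dg ∧ ∀ (m : ℕ) (r : Fin m → ℕ), (∀ h, 0 < r h) →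
      ∀ Bad : Finset (Fin m → Fin n → ℕ), Bad ⊆ Dset m n r →
        #Bad * (8 * Dg) ≤ #(Dset m n r) →
      ∃ c : (Fin m → Fin n → ℕ) → ℤ,
        (∃ a ∈ Dset m n r, c a ≠ 0) ∧
        (∀ a ∈ Dset m n r, |(c a : ℝ)| ≤ C ^ (∑ h, r h)) ∧
        (∀ a ∈ Dset m n r, c a ≠ 0 → a ∉ Bad) ∧
        (∀ J ∈ Bad, ∑ a ∈ Dset m n r, (c a : ℝ) * ∏ h : Fin m,
            ∏ l ∈ (Finset.univ : Finset (Fin n)).erase Y,
            (((a h l).choose (J h l) : ℝ) * ξ ^ (a h l - J h l)) = 0) := by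
  classical
  obtain ⟨Dg, C0, hDg, hC0, hpow⟩ := int_powers ξ hξ
  choose ρ hρ hρb using hpow
  have hC0' : (1 : ℝ) ≤ C0 := by exact_mod_cast hC0
  refine ⟨2 ^ n * (2 * C0), ?_, Dg, hDg, ?_⟩
  · have h1 : (1 : ℝ) ≤ 2 ^ n := one_le_pow₀ (by norm_num)
    nlinarith
  obtain ⟨Cc, hCc⟩ : ∃ Cc : ℝ, Cc = 2 ^ n * (2 * C0) := ⟨_, rfl⟩
  rw [← hCc]
  have hCc1 : 1 ≤ Cc := by
    have h1 : (1 : ℝ) ≤ 2 ^ n := one_le_pow₀ (by norm_num)
    rw [hCc]
    nlinarith
  intro m r hr Bad hBadD hBadnat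
  obtain ⟨D, hD⟩ : ∃ D : Finset (Fin m → Fin n → ℕ), D = Dset m n r := ⟨_, rfl⟩
  rw [← hD] at hBadD hBadnat ⊢
  have hDpos : 0 < D.card := by
    rw [hD]
    exact Finset.card_pos.mpr (Dset_nonempty hn r)
  obtain ⟨Good, hGood⟩ : ∃ Good : Finset (Fin m → Fin n → ℕ), Good = D \ Bad := ⟨_, rfl⟩
  have hGoodcard : Good.card = D.card - Bad.card := by
    rw [hGood, Finset.card_sdiff_of_subset hBadD]
  have hGD : Good ⊆ D := by
    rw [hGood]
    exact Finset.sdiff_subset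
  -- it suffices to construct `c` supported on Good killing Bad
  suffices hsuff : ∃ c : (Fin m → Fin n → ℕ) → ℤ, (∃ a ∈ Good, c a ≠ 0) ∧
      (∀ a, |(c a : ℝ)| ≤ Cc ^ (∑ h, r h)) ∧ (∀ a, a ∉ Good → c a = 0) ∧
      (∀ J ∈ Bad, ∑ a ∈ D, (c a : ℝ) * ∏ h : Fin m, ∏ l ∈ (Finset.univ : Finset (Fin n)).erase Y,
            (((a h l).choose (J h l) : ℝ) * ξ ^ (a h l - J h l)) = 0) by
    obtain ⟨c, ⟨a, ha, hca⟩, hcb, hc0, hcJ⟩ := hsuff
    refine ⟨c, ⟨a, hGD ha, hca⟩, fun a _ => hcb a, ?_, hcJ⟩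
    intro a _ hca hB
    refine hca (hc0 a fun hg => ?_)
    rw [hGood, Finset.mem_sdiff] at hg
    exact hg.2 hB
  by_cases hBe : Bad.card = 0
  · -- no equations
    rw [Finset.card_eq_zero] at hBe
    obtain ⟨a₀, ha₀⟩ : D.Nonempty := Finset.card_pos.1 hDpos
    refine ⟨fun a => if a = a₀ then 1 else 0, ⟨a₀, ?_, by simp⟩, ?_, ?_, ?_⟩
    · rw [hGood, hBe]; simpa using ha₀
    · intro a
      have h1 : (1 : ℝ) ≤ Cc ^ (∑ h, r h) := one_le_pow₀ hCc1
      by_cases h : a = a₀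
      · simpa [h] using h1
      · simp [h]; positivity
    · intro a ha
      have : a ≠ a₀ := by
        rintro rfl; apply ha; rw [hGood, hBe]; simpa using ha₀
      simp [this]
    · intro J hJ
      rw [hBe] at hJ; simp at hJ
  · -- Siegel's lemma
    have hBpos : 0 < Bad.card := Nat.pos_of_ne_zero hBe
    have hcards : Bad.card * Dg * 2 ≤ Good.card := by
      rw [hGoodcard]
      have h1 : Bad.card * 8 ≤ D.card := by
        calc Bad.card * 8 ≤ Bad.card * (8 * Dg) := Nat.mul_le_mul_left _ (by omega)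
          _ ≤ D.card := hBadnat
      have h2 : Bad.card * Dg * 2 + Bad.card ≤ D.card := by
        calc Bad.card * Dg * 2 + Bad.card ≤ Bad.card * (8 * Dg) := by
              have : Bad.card * 1 ≤ Bad.card * Dg := Nat.mul_le_mul_left _ hDg
              nlinarith
          _ ≤ D.card := hBadnat
      omega
    let sx : (Fin m → Fin n → ℕ) → (Fin m → Fin n → ℕ) → ℕ := fun a J =>
      ∑ h, ∑ l ∈ (Finset.univ : Finset (Fin n)).erase Y, (a h l - J h l)
    let bc : (Fin m → Fin n → ℕ) → (Fin m → Fin n → ℕ) → ℕ := fun a J =>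
      ∏ h : Fin m, ∏ l ∈ (Finset.univ : Finset (Fin n)).erase Y, (a h l).choose (J h l)
    let A : Matrix (↥Bad × Fin Dg) ↥Good ℤ := Matrix.of fun Ji a =>
      (bc a.1 Ji.1.1 : ℤ) * ρ (sx a.1 Ji.1.1) Ji.2
    have hcα : Fintype.card (↥Bad × Fin Dg) = Bad.card * Dg := by
      rw [Fintype.card_prod, Fintype.card_coe, Fintype.card_fin]
    have hcβ : Fintype.card ↥Good = Good.card := Fintype.card_coe _
    have hα0 : 0 < Bad.card * Dg := Nat.mul_pos hBpos hDg
    obtain ⟨t, ht0, hAt, htn⟩ := Int.Matrix.exists_ne_zero_int_vec_norm_le A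
      (by rw [hcα, hcβ]; omega) (by rw [hcα]; exact hα0)
    set N := ∑ h, r h with hN
    -- norm of A
    have hsumerase : ∀ a ∈ D, ∑ h, ∑ l ∈ (Finset.univ : Finset (Fin n)).erase Y, a h l ≤ N := by
      intro a ha
      rw [hD, mem_Dset] at ha
      apply Finset.sum_le_sum
      intro h _
      rw [← ha h]
      exact Finset.sum_le_sum_of_subset (Finset.erase_subset _ _)
    have hAn : ‖A‖ ≤ (2 * C0 : ℝ) ^ N := by
      rw [Matrix.norm_le_iff (by positivity)]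
      intro Ji a
      simp only [A, Matrix.of_apply]
      rw [Int.norm_eq_abs]
      push_cast
      rw [abs_mul]
      have haD : a.1 ∈ D := hGD a.2
      have h1 : |((bc a.1 Ji.1.1 : ℕ) : ℝ)| ≤ 2 ^ N := by
        rw [Nat.abs_cast]
        have : bc a.1 Ji.1.1 ≤ 2 ^ N := by
          calc bc a.1 Ji.1.1 ≤ ∏ h : Fin m, ∏ l ∈ (Finset.univ : Finset (Fin n)).erase Y,
                2 ^ (a.1 h l) := by
                apply Finset.prod_le_prod'; intro h _
                apply Finset.prod_le_prod'; intro l _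
                exact Nat.choose_le_two_pow _ _
            _ = 2 ^ (∑ h, ∑ l ∈ (Finset.univ : Finset (Fin n)).erase Y, a.1 h l) := by
                simp_rw [Finset.prod_pow_eq_pow_sum]
            _ ≤ 2 ^ N := Nat.pow_le_pow_right (by norm_num) (hsumerase _ haD)
        exact_mod_cast this
      have h2 : |((ρ (sx a.1 Ji.1.1) Ji.2 : ℤ) : ℝ)| ≤ (C0 : ℝ) ^ N := by
        have h3 : |((ρ (sx a.1 Ji.1.1) Ji.2 : ℤ) : ℝ)| ≤ (C0 : ℝ) ^ (sx a.1 Ji.1.1) := by
          exact_mod_cast hρb (sx a.1 Ji.1.1) Ji.2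
        refine h3.trans ?_
        apply pow_le_pow_right₀ hC0'
        refine le_trans ?_ (hsumerase _ haD)
        apply Finset.sum_le_sum; intro h _
        apply Finset.sum_le_sum; intro l _
        exact Nat.sub_le _ _
      calc |((bc a.1 Ji.1.1 : ℕ) : ℝ)| * |((ρ (sx a.1 Ji.1.1) Ji.2 : ℤ) : ℝ)| ≤ 2 ^ N * (C0 : ℝ) ^ N :=
            mul_le_mul h1 h2 (abs_nonneg _) (by positivity)
        _ = (2 * C0 : ℝ) ^ N := by rw [mul_pow]
    have hbase1 : (1 : ℝ) ≤ (2 * C0 : ℝ) ^ N := one_le_pow₀ (by linarith)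
    have hmaxA : max 1 ‖A‖ ≤ (2 * C0 : ℝ) ^ N := max_le hbase1 hAn
    have htn' : ‖t‖ ≤ Cc ^ N := by
      have hGpos : (1 : ℝ) ≤ (Good.card : ℝ) := by
        have : 1 ≤ Good.card := by omega
        exact_mod_cast this
      have hbase : (1 : ℝ) ≤ (Good.card : ℝ) * max 1 ‖A‖ := by
        have := le_max_left 1 ‖A‖
        nlinarith
      rw [hcα, hcβ] at htn
      refine htn.trans ?_
      have hexp : (((Bad.card * Dg : ℕ) : ℝ) / ((Good.card : ℝ) - ((Bad.card * Dg : ℕ) : ℝ))) ≤ 1 := by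
        have h1 : ((Bad.card * Dg : ℕ) : ℝ) * 2 ≤ Good.card := by exact_mod_cast hcards
        have h2 : (0 : ℝ) < ((Bad.card * Dg : ℕ) : ℝ) := by exact_mod_cast hα0
        rw [div_le_one (by linarith)]
        linarith
      calc ((Good.card : ℝ) * max 1 ‖A‖) ^ (((Bad.card * Dg : ℕ) : ℝ) / ((Good.card : ℝ) - ((Bad.card * Dg : ℕ) : ℝ)))
          ≤ ((Good.card : ℝ) * max 1 ‖A‖) ^ (1 : ℝ) := Real.rpow_le_rpow_of_exponent_le hbase hexp
        _ = (Good.card : ℝ) * max 1 ‖A‖ := Real.rpow_one _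
        _ ≤ (2 ^ n : ℝ) ^ N * (2 * C0 : ℝ) ^ N := by
            apply mul_le_mul _ hmaxA (by positivity) (by positivity)
            have h1 : Good.card ≤ (2 ^ n) ^ N :=
              (Finset.card_le_card hGD).trans (by rw [hD]; exact card_Dset_le r)
            exact_mod_cast h1
        _ = Cc ^ N := by rw [hCc]; exact (mul_pow _ _ _).symm
    obtain ⟨cc, hcc1, hcc0⟩ : ∃ cc : (Fin m → Fin n → ℕ) → ℤ,
        (∀ a (h : a ∈ Good), cc a = t ⟨a, h⟩) ∧ (∀ a, a ∉ Good → cc a = 0) :=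
      ⟨fun a => if h : a ∈ Good then t ⟨a, h⟩ else 0, fun a h => dif_pos h, fun a h => dif_neg h⟩
    refine ⟨cc, ?_, ?_, hcc0, ?_⟩
    · obtain ⟨a, ha⟩ := Function.ne_iff.mp ht0
      refine ⟨a.1, a.2, ?_⟩
      rw [hcc1 a.1 a.2]; exact ha
    · intro a
      by_cases h : a ∈ Good
      · rw [hcc1 a h]
        refine le_trans ?_ htn'
        have := norm_le_pi_norm t ⟨a, h⟩
        rwa [Int.norm_eq_abs] at this
      · rw [hcc0 a h]; simp; positivity
    · intro J hJ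
      have hsub : Good ⊆ D := hGD
      rw [← Finset.sum_subset hsub (by
        intro a _ ha
        rw [hcc0 a ha]; simp)]
      rw [← Finset.sum_coe_sort Good]
      have h1 : ∀ a : ↥Good, ((cc a.1 : ℤ) : ℝ) *
          ∏ h : Fin m, ∏ l ∈ (Finset.univ : Finset (Fin n)).erase Y,
            (((a.1 h l).choose (J h l) : ℝ) * ξ ^ (a.1 h l - J h l)) =
          ∑ i ∈ Finset.range Dg, ((t a : ℝ) * ((bc a.1 J : ℝ) * (ρ (sx a.1 J) i : ℝ))) * ξ ^ i := by
        intro a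
        rw [hcc1 a.1 a.2]
        have h2 : ∏ h : Fin m, ∏ l ∈ (Finset.univ : Finset (Fin n)).erase Y,
            (((a.1 h l).choose (J h l) : ℝ) * ξ ^ (a.1 h l - J h l)) =
            (bc a.1 J : ℝ) * ξ ^ (sx a.1 J) := by
          simp only [bc, sx]
          push_cast
          simp_rw [Finset.prod_mul_distrib, Finset.prod_pow_eq_pow_sum]
        rw [h2, hρ (sx a.1 J), Finset.mul_sum, Finset.mul_sum]
        refine Finset.sum_congr rfl (fun i _ => ?_)
        ring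
      rw [Finset.sum_congr rfl (fun a _ => h1 a), Finset.sum_comm]
      apply Finset.sum_eq_zero
      intro i hi
      rw [← Finset.sum_mul]
      have h3 := congrFun hAt (⟨J, hJ⟩, ⟨i, Finset.mem_range.mp hi⟩)
      simp only [Matrix.mulVec, dotProduct, A, Matrix.of_apply, Pi.zero_apply] at h3
      have h4 : ∑ a : ↥Good, ((t a : ℝ) * ((bc a.1 J : ℝ) * (ρ (sx a.1 J) i : ℝ))) = 0 := by
        have h5 : ((∑ x : ↥Good, (bc x.1 J : ℤ) * ρ (sx x.1 J) i * t x : ℤ) : ℝ) = 0 := by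
          rw [h3]; simp
        push_cast at h5
        rw [← h5]
        refine Finset.sum_congr rfl (fun a _ => ?_)
        ring
      rw [h4, zero_mul]

/-- the exceptional set for a weight is small -/
theorem bad_card_w {m n : ℕ} (hn : 1 ≤ n) (r : Fin m → ℕ) (hr : ∀ h, 0 < r h) (hm : 0 < m)
    (w : Fin m → Fin n → ℝ) (W : ℝ) (hW : 0 < W) (hw : ∀ h l, |w h l| ≤ W) (t : ℝ) (ht : 0 < t) :
    (#((Dset m n r).filter (fun a => ∃ l : Fin n,
      t * m < |∑ h, w h l * ((a h l : ℝ) / (r h : ℝ) - 1 / (n : ℝ))|)) : ℝ) ≤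
      n * (W ^ 2 * #(Dset m n r) / (t ^ 2 * m)) := by
  classical
  have h1 : (Dset m n r).filter (fun a => ∃ l : Fin n,
      t * m < |∑ h, w h l * ((a h l : ℝ) / (r h : ℝ) - 1 / (n : ℝ))|) ⊆
      Finset.univ.biUnion (fun l : Fin n => (Dset m n r).filter (fun a =>
        t * m < |∑ h, w h l * ((a h l : ℝ) / (r h : ℝ) - 1 / (n : ℝ))|)) := by
    intro a ha
    rw [Finset.mem_filter] at ha
    obtain ⟨ha, l, hl⟩ := ha
    rw [Finset.mem_biUnion]
    exact ⟨l, Finset.mem_univ l, Finset.mem_filter.mpr ⟨ha, hl⟩⟩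
  have h2 := (Finset.card_le_card h1).trans Finset.card_biUnion_le
  have h3 : ((((Dset m n r).filter (fun a => ∃ l : Fin n,
      t * m < |∑ h, w h l * ((a h l : ℝ) / (r h : ℝ) - 1 / (n : ℝ))|)).card : ℕ) : ℝ) ≤
      ∑ l : Fin n, ((((Dset m n r).filter (fun a =>
        t * m < |∑ h, w h l * ((a h l : ℝ) / (r h : ℝ) - 1 / (n : ℝ))|)).card : ℕ) : ℝ) := by
    exact_mod_cast h2
  refine h3.trans ?_
  have hm' : (0 : ℝ) < m := by exact_mod_cast hm
  have h4 : ∀ l ∈ (Finset.univ : Finset (Fin n)), ((((Dset m n r).filter (fun a =>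
        t * m < |∑ h, w h l * ((a h l : ℝ) / (r h : ℝ) - 1 / (n : ℝ))|)).card : ℕ) : ℝ) ≤
        W ^ 2 * ((Dset m n r).card : ℝ) / (t ^ 2 * m) := by
    intro l _
    have h5 := chebyshev (fun h => Finset.piAntidiag (Finset.univ : Finset (Fin n)) (r h))
      (fun h b => w h l / W * ((b l : ℝ) / (r h : ℝ) - 1 / (n : ℝ)))
      (fun h => by rw [← Finset.mul_sum, block_sum hn (r h) (hr h) l, mul_zero])
      (fun h b hb => by
        rw [abs_mul, abs_div, abs_of_pos hW]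
        exact mul_le_one₀ ((div_le_one hW).2 (hw h l)) (abs_nonneg _)
          (block_abs hn (r h) (hr h) l b hb)) (t / W) (div_pos ht hW) hm
    have h6 : ∀ a : Fin m → Fin n → ℕ,
        ∑ h, w h l / W * ((a h l : ℝ) / (r h : ℝ) - 1 / (n : ℝ)) =
        (∑ h, w h l * ((a h l : ℝ) / (r h : ℝ) - 1 / (n : ℝ))) / W := by
      intro a
      rw [Finset.sum_div]
      exact Finset.sum_congr rfl fun h _ => by ring
    have h7 : ∀ a : Fin m → Fin n → ℕ,
        (t * m < |∑ h, w h l * ((a h l : ℝ) / (r h : ℝ) - 1 / (n : ℝ))|) ↔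
        (t / W * m < |∑ h, w h l / W * ((a h l : ℝ) / (r h : ℝ) - 1 / (n : ℝ))|) := by
      intro a
      rw [h6, abs_div, abs_of_pos hW, div_mul_eq_mul_div, div_lt_div_iff_of_pos_right hW]
    have h8 : (Dset m n r).filter (fun a =>
        t * m < |∑ h, w h l * ((a h l : ℝ) / (r h : ℝ) - 1 / (n : ℝ))|) =
        (Dset m n r).filter (fun a =>
        t / W * m < |∑ h, w h l / W * ((a h l : ℝ) / (r h : ℝ) - 1 / (n : ℝ))|) :=
      Finset.filter_congr fun a _ => h7 a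
    rw [h8]
    refine le_trans h5 (le_of_eq ?_)
    have hW' := hW.ne'
    show ((Dset m n r).card : ℝ) / ((t / W) ^ 2 * m) = _
    field_simp
  refine (Finset.sum_le_card_nsmul _ _ _ h4).trans ?_
  simp

end Pool.Agent.H723.QR
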