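import Mathlib
import Pool.Agent.H723.QR.Aux3
import Pool.Agent.H723.QR.V5
import Pool.Agent.H723.QR.V6

/-! The core of the codimension one subspace theorem for `m` given approximations, with weights
depending on the approximation and with two parameters in Roth's lemma. -/

set_option autoImplicit false

open Finset

namespace Pool.Agent.H723.QR

open Pool.Agent.H393R2 Pool.Agent.H723.QS Pool.Agent.H723.PT

theorem core_m3 (n' : ℕ) (hn : 1 ≤ n') (b : ℕ) (hb : 2 ≤ b) (ξ : ℝ)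
    (Y j1 j2 : Fin (n' + 1)) (hj1 : j1 ≠ Y) (hj12 : j1 ≠ j2)
    (C : ℝ) (hC : 1 ≤ C) (Dg : ℕ)
    (haux : ∀ (m : ℕ) (r : Fin m → ℕ), (∀ h, 0 < r h) →
      ∀ Bad : Finset (Fin m → Fin (n' + 1) → ℕ), Bad ⊆ Dset m (n' + 1) r →
        #Bad * (8 * Dg) ≤ #(Dset m (n' + 1) r) →
      ∃ c : (Fin m → Fin (n' + 1) → ℕ) → ℤ,
        (∃ a ∈ Dset m (n' + 1) r, c a ≠ 0) ∧
        (∀ a ∈ Dset m (n' + 1) r, |(c a : ℝ)| ≤ C ^ (∑ h, r h)) ∧
        (∀ a ∈ Dset m (n' + 1) r, c a ≠ 0 → a ∉ Bad) ∧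
        (∀ J ∈ Bad, ∑ a ∈ Dset m (n' + 1) r, (c a : ℝ) * ∏ h : Fin m,
            ∏ l ∈ (Finset.univ : Finset (Fin (n' + 1))).erase Y,
            (((a h l).choose (J h l) : ℝ) * ξ ^ (a h l - J h l)) = 0))
    (m : ℕ) (hm : 0 < m) (τ : ℝ) (hτ0 : 0 < τ) (hτ12 : τ ≤ 1 / 2)
    (c cc γ σ : ℝ) (hc : 1 ≤ c) (hcc : 1 ≤ cc) (hγ : 0 < γ) (hσ : 0 < σ) (hτσ : cc * τ ≤ σ)
    (hmσ : 40 * ((n' + 1 : ℕ) : ℝ) * cc ^ 2 * Dg ≤ σ ^ 2 * m)
    (X : ℝ) (hX1 : 1 ≤ X) (hXξ : |ξ| ≤ X)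
    (hσγ : (2 * ((n' + 1 : ℕ) : ℝ) + 4) * σ ≤ γ / (4 * ((n' + 1 : ℕ) : ℝ)))
    (Ns : ℝ) (hNs1 : 1 ≤ Ns)
    (hNs2 : Real.log (2 ^ (2 * (n' + 1)) * C * (2 * X) * 2 * ((n' + 1 : ℕ) : ℝ)) *
      (4 * ((n' + 1 : ℕ) : ℝ)) / γ ≤ Ns)
    (hNs3 : 2 * c / om2 m τ ≤ Ns)
    (hNs4 : Real.log C * m * (2 * c) / om2 m τ ≤ Ns)
    (N : Fin m → ℝ) (hNmin : ∀ h, Ns ≤ N h) (hf3 : ∀ i j, i < j → (2 / om1 m τ) * N i ≤ N j)
    (e : Fin m → Fin (n' + 1) → ℕ) (heY : ∀ t, e t Y = 0)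
    (x : Fin m → Fin (n' + 1) → ℤ) (A : Fin m → Fin (n' + 1) → ℝ) (hApos : ∀ t l, 0 < A t l)
    (hAcc : ∀ h l, |-Real.log (A h l)| ≤ cc * N h)
    (hecc : ∀ h l, (e h l : ℝ) * Real.log b ≤ cc * N h)
    (hγN : ∀ h, γ * N h ≤ ∑ l, -Real.log (A h l))
    (w : Fin m → Fin n' → Fin (n' + 1) → ℤ) (hw : ∀ t, LinearIndependent ℤ (w t))
    (horth : ∀ t i, ∑ l, x t l * w t i l = 0)
    (hbd : ∀ t i l, |(w t i l : ℝ) - (if l = Y then 0 else ξ * (b : ℝ) ^ (e t l) * w t i Y)|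
      ≤ A t l)
    (hx1 : ∀ t, x t j1 ≠ 0) (p q : Fin m → ℤ) (hpq : ∀ t, IsCoprime (p t) (q t))
    (hrat : ∀ t, x t j1 * (b : ℤ) ^ (e t j1) * p t = -(x t j2 * (b : ℤ) ^ (e t j2) * q t))
    (hq0 : ∀ t, q t ≠ 0)
    (hht : ∀ t, N t / c ≤ Real.log (max |(p t : ℝ)| |(q t : ℝ)|)) : False := by
  classical
  have hbR : (2 : ℝ) ≤ b := by exact_mod_cast hb
  have hb0 : (0 : ℝ) < b := by linarith
  have hc0 : (0 : ℝ) < c := by linarith
  have hlogb : 0 < Real.log b := Real.log_pos (by linarith)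
  set ω : ℝ := om2 m τ with hωdef
  have hω : 0 < ω := om2_pos m τ hτ0
  have hω1 : 0 < om1 m τ := om1_pos m τ hτ0
  have hNs0 : 0 < Ns := by linarith
  have hNh0 : ∀ h, 0 < N h := fun h => lt_of_lt_of_le hNs0 (hNmin h)
  obtain ⟨R0, r, hR0, hr, hrN1, hrN2⟩ := exists_degrees hm (fun h => N h) hNh0 τ hτ0 hτ12
  -- the exceptional set
  set w1 : Fin m → Fin (n' + 1) → ℝ := fun h l => (e h l : ℝ) * Real.log b / N h with hw1
  set w2 : Fin m → Fin (n' + 1) → ℝ :=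
    fun h l => ((e h l : ℝ) * Real.log b - Real.log (A h l)) / N h with hw2
  have hcc0 : (0 : ℝ) < cc := by linarith
  have hw1b : ∀ h l, |w1 h l| ≤ cc := by
    intro h l
    rw [hw1]
    simp only
    rw [abs_div, abs_of_pos (hNh0 h), div_le_iff₀ (hNh0 h), abs_of_nonneg (by positivity)]
    exact hecc h l
  have hw2b : ∀ h l, |w2 h l| ≤ 2 * cc := by
    intro h l
    rw [hw2]
    simp only
    rw [abs_div, abs_of_pos (hNh0 h), div_le_iff₀ (hNh0 h)]
    have h1 := hAcc h l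
    have h2 := hecc h l
    have h3 : |(e h l : ℝ) * Real.log b| = (e h l : ℝ) * Real.log b := abs_of_nonneg (by positivity)
    calc |(e h l : ℝ) * Real.log b - Real.log (A h l)|
        ≤ |(e h l : ℝ) * Real.log b| + |-Real.log (A h l)| := by
          rw [sub_eq_add_neg]; exact abs_add_le _ _
      _ ≤ 2 * cc * N h := by rw [h3]; linarith
  set Bad1 := (Dset m (n' + 1) r).filter (fun a => ∃ l : Fin (n' + 1),
      σ * m < |∑ h, w1 h l * ((a h l : ℝ) / (r h : ℝ) - 1 / ((n' + 1 : ℕ) : ℝ))|) with hBad1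
  set Bad2 := (Dset m (n' + 1) r).filter (fun a => ∃ l : Fin (n' + 1),
      σ * m < |∑ h, w2 h l * ((a h l : ℝ) / (r h : ℝ) - 1 / ((n' + 1 : ℕ) : ℝ))|) with hBad2
  have hBadc : #(Bad1 ∪ Bad2) * (8 * Dg) ≤ #(Dset m (n' + 1) r) := by
    have hb1 := bad_card_w (by omega : 1 ≤ n' + 1) r hr hm w1 cc hcc0 hw1b σ hσ
    have hb2 := bad_card_w (by omega : 1 ≤ n' + 1) r hr hm w2 (2 * cc) (by linarith) hw2b σ hσ
    have hu : (#(Bad1 ∪ Bad2) : ℝ) ≤ #Bad1 + #Bad2 := by exact_mod_cast Finset.card_union_le _ _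
    have hmR : (0 : ℝ) < m := by exact_mod_cast hm
    have hσm : 0 < σ ^ 2 * m := by positivity
    have hD0 : (0 : ℝ) ≤ #(Dset m (n' + 1) r) := Nat.cast_nonneg _
    have h1 : (#(Bad1 ∪ Bad2) : ℝ) ≤
        5 * ((n' + 1 : ℕ) : ℝ) * cc ^ 2 * #(Dset m (n' + 1) r) / (σ ^ 2 * m) := by
      refine (hu.trans (add_le_add hb1 hb2)).trans (le_of_eq ?_)
      field_simp
      ring
    rw [le_div_iff₀ hσm] at h1
    have h2 : ((#(Bad1 ∪ Bad2) * (8 * Dg) : ℕ) : ℝ) ≤ (#(Dset m (n' + 1) r) : ℝ) := by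
      push_cast
      have h3 : (#(Bad1 ∪ Bad2) : ℝ) * (σ ^ 2 * m) * (8 * Dg) ≤
          #(Dset m (n' + 1) r) * (σ ^ 2 * m) := by
        calc (#(Bad1 ∪ Bad2) : ℝ) * (σ ^ 2 * m) * (8 * Dg)
            ≤ (5 * ((n' + 1 : ℕ) : ℝ) * cc ^ 2 * #(Dset m (n' + 1) r)) * (8 * Dg) :=
              mul_le_mul_of_nonneg_right h1 (by positivity)
          _ = #(Dset m (n' + 1) r) * (40 * ((n' + 1 : ℕ) : ℝ) * cc ^ 2 * Dg) := by ring
          _ ≤ _ := mul_le_mul_of_nonneg_left hmσ hD0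
      have h4 : (#(Bad1 ∪ Bad2) : ℝ) * (8 * Dg) * (σ ^ 2 * m) ≤
          #(Dset m (n' + 1) r) * (σ ^ 2 * m) := by
        calc _ = (#(Bad1 ∪ Bad2) : ℝ) * (σ ^ 2 * m) * (8 * Dg) := by ring
          _ ≤ _ := h3
      exact le_of_mul_le_mul_right h4 hσm
    exact_mod_cast h2
  obtain ⟨cf, hcf0, hcfC, hcfs, hcfb⟩ := haux m r hr (Bad1 ∪ Bad2)
    (Finset.union_subset (Finset.filter_subset _ _) (Finset.filter_subset _ _)) hBadc
  have hrle : ∀ h, (r h : ℝ) ≤ R0 / N h := by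
    intro h; rw [le_div_iff₀ (hNh0 h)]; exact hrN2 h
  -- reduce_pair input
  have hvan : ∀ k ∈ {k : Fin m → ℕ | ∑ h, (k h : ℝ) / (r h : ℝ) < τ},
      ∀ W : Fin m → Fin (n' + 1) → ℝ,
        (∀ h, ∑ l, ((x h l : ℝ) * (b : ℝ) ^ (e h l)) * W h l = 0) →
        Sk r j1 k cf W = 0 := by
    intro k hk W hW
    obtain ⟨E, hE1, hE2⟩ := est3 hm (by omega : 1 ≤ n' + 1) r hr Y j1 ξ X hX1 hXξ k cf C hC hcfC τ
      hτ0 (by linarith) σ hσ cc hcc hτσ b hb (fun h l => e h l) (fun h l => A h l)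
      (fun h l => hApos _ _) (fun h => N h) Ns hNs0 hNmin R0 hR0 hrN1 hrN2 hAcc hecc γ hγ hγN
      (by
        intro a ha hca l
        have h1 := hcfs a ha hca
        rw [Finset.mem_union, not_or] at h1
        by_contra h2
        push Not at h2
        apply h1.1
        rw [hBad1, Finset.mem_filter]
        exact ⟨ha, l, h2.trans_le (le_abs_self _)⟩)
      (by
        intro J hJ ⟨l, hl⟩
        apply hcfb J
        rw [Finset.mem_union]
        right
        rw [hBad2, Finset.mem_filter]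
        refine ⟨hJ, l, ?_⟩
        have h2 := neg_abs_le (∑ h, w2 h l * ((J h l : ℝ) / (r h : ℝ) - 1 / ((n' + 1 : ℕ) : ℝ)))
        have h3 : ∑ h, w2 h l * ((J h l : ℝ) / (r h : ℝ) - 1 / ((n' + 1 : ℕ) : ℝ)) < -(σ * m) := hl
        linarith)
      hk hσγ
      (by
        rw [div_le_iff₀ hNs0]
        rw [div_le_iff₀ hγ] at hNs2
        have h5 : (0 : ℝ) < 4 * ((n' + 1 : ℕ) : ℝ) := by positivity
        rw [div_mul_eq_mul_div, le_div_iff₀ h5]
        linarith)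
    have hSV := Sk_vanish r Y j1 hj1 ξ k cf b (by omega) (fun h l => e h l)
      (fun h => heY _) (fun h => w h)
      (fun h l => ((n' + 1 : ℕ) : ℝ) * A h l / (b : ℝ) ^ (e h l))
      (by
        intro h l
        have hbe : (0 : ℝ) < (b : ℝ) ^ (e h l) := by positivity
        calc ∑ i, |((w h i l : ℝ) - (if l = Y then 0 else ξ * (b : ℝ) ^ (e h l) *
                w h i Y)) / (b : ℝ) ^ (e h l)|
            ≤ ∑ _i : Fin n', A h l / (b : ℝ) ^ (e h l) := by
              apply Finset.sum_le_sum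
              intro i _
              rw [abs_div, abs_of_pos hbe]
              exact div_le_div_of_nonneg_right (hbd _ _ _) hbe.le
          _ = (n' : ℝ) * (A h l / (b : ℝ) ^ (e h l)) := by
              rw [Finset.sum_const, Finset.card_univ, Fintype.card_fin, nsmul_eq_mul]
          _ ≤ ((n' + 1 : ℕ) : ℝ) * A h l / (b : ℝ) ^ (e h l) := by
              rw [mul_div_assoc]
              apply mul_le_mul_of_nonneg_right
              · push_cast; linarith
              · have := hApos h l; positivity)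
      E hE1 hE2
    -- span
    have hsp : ∀ h, ∃ u : Fin n' → ℝ, ∀ l, (b : ℝ) ^ (e h l) * W h l =
        ∑ i, u i * (w h i l : ℝ) := by
      intro h
      apply span_perp n' (x h) _ (w h) (hw _) (horth _)
      · rw [← hW h]
        apply Finset.sum_congr rfl
        intro l _
        ring
      · intro h0
        apply hx1 h
        rw [h0]; rfl
    choose u hu using hsp
    rw [← hSV u]
    congr 1
    funext h l
    have hbe : (b : ℝ) ^ (e h l) ≠ 0 := by positivity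
    have h1 := hu h l
    have h2 : W h l = ((b : ℝ) ^ (e h l) * W h l) / (b : ℝ) ^ (e h l) := by
      field_simp
    rw [h2, h1, Finset.sum_div]
    apply Finset.sum_congr rfl
    intro i _
    ring
  obtain ⟨c', hc'0, hc'H, hc'v⟩ := reduce_pair r j1 j2 hj12
    {k : Fin m → ℕ | ∑ h, (k h : ℝ) / (r h : ℝ) < τ} cf (C ^ (∑ h, r h)) (by positivity) hcf0 hcfC
    (fun h l => (x h l : ℝ) * (b : ℝ) ^ (e h l))
    (by
      intro h
      have h1 : (x h j1 : ℝ) ≠ 0 := by exact_mod_cast hx1 _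
      have h2 : (b : ℝ) ^ (e h j1) ≠ 0 := by positivity
      exact mul_ne_zero h1 h2) hvan
  have hτ1 : (1 - τ) ≥ 1 / 2 := by linarith
  obtain ⟨k, hk1, hk2⟩ := roth_coef3 m τ hτ0 (by linarith) r (R0 / (2 * c)) hm hr
    (by
      intro i j hij
      have h1 := hrle j
      have h2 := hrN1 i
      have h4 : (2 / om1 m τ) * N i ≤ N j := hf3 i j hij
      have h5 : R0 / N j ≤ R0 / ((2 / om1 m τ) * N i) := by
        apply div_le_div_of_nonneg_left hR0.le _ h4
        have := hNh0 i; positivity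
      have h6 : R0 / ((2 / om1 m τ) * N i) = om1 m τ * ((1/2) * R0 / N i) := by
        have := (hNh0 i).ne'
        field_simp
      have h7 : (1/2) * R0 / N i ≤ r i := by
        rw [div_le_iff₀ (hNh0 i)]
        refine le_trans ?_ h2
        exact mul_le_mul_of_nonneg_right hτ1 hR0.le
      calc (r j : ℝ) ≤ R0 / N j := h1
        _ ≤ om1 m τ * ((1/2) * R0 / N i) := by rw [← h6]; exact h5
        _ ≤ om1 m τ * r i := mul_le_mul_of_nonneg_left h7 hω1.le)
    (by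
      intro h
      refine le_trans (hrle h) ?_
      rw [div_le_iff₀ (hNh0 h)]
      have h1 : 2 * c / ω ≤ N h := le_trans hNs3 (hNmin h)
      rw [div_le_iff₀ hω] at h1
      have h2 : ω * (R0 / (2 * c)) * N h = R0 * (N h * ω) / (2 * c) := by
        field_simp
      rw [h2, le_div_iff₀ (by positivity)]
      exact mul_le_mul_of_nonneg_left h1 hR0.le)
    (fun h => p h) (fun h => q h) (fun h => hpq _) (fun h => hq0 _)
    (by
      intro h
      have h1 := hht h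
      have h2 : R0 / (2 * c) ≤ r h * (N h / c) := by
        rw [← mul_div_assoc, div_le_div_iff₀ (by positivity) hc0]
        have h3 : R0 / 2 ≤ r h * N h := by
          refine le_trans ?_ (hrN1 h)
          nlinarith
        nlinarith
      refine le_trans h2 ?_
      exact mul_le_mul_of_nonneg_left h1 (by positivity))
    c' hc'0
    (by
      intro a ha
      refine le_trans (hc'H a ha) ?_
      have hCpos : 0 < C := by linarith
      have h1 : C ^ (∑ h, r h) = Real.exp (Real.log C * ((∑ h, r h : ℕ) : ℝ)) := by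
        rw [← Real.rpow_natCast, Real.rpow_def_of_pos hCpos]
      rw [h1, Real.exp_le_exp]
      have h2 : ((∑ h, r h : ℕ) : ℝ) ≤ m * (R0 / Ns) := by
        push_cast
        calc ∑ h, (r h : ℝ) ≤ ∑ _h : Fin m, R0 / Ns := by
              apply Finset.sum_le_sum
              intro h _
              refine le_trans (hrle h) ?_
              exact div_le_div_of_nonneg_left hR0.le hNs0 (hNmin h)
          _ = m * (R0 / Ns) := by
              rw [Finset.sum_const, Finset.card_univ, Fintype.card_fin, nsmul_eq_mul]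
      have h3 : 0 ≤ Real.log C := Real.log_nonneg hC
      refine le_trans (mul_le_mul_of_nonneg_left h2 h3) ?_
      rw [div_le_iff₀ hω] at hNs4
      have h4 : Real.log C * (↑m * (R0 / Ns)) = (Real.log C * m * (2 * c)) * R0 / (Ns * (2 * c)) := by
        field_simp
      rw [h4, div_le_iff₀ (by positivity)]
      have h5 : ω * (R0 / (2 * c)) * (Ns * (2 * c)) = Ns * ω * R0 := by
        field_simp
      rw [h5]
      exact mul_le_mul_of_nonneg_right hNs4 hR0.le)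
  apply hk2
  have h1 := hc'v k hk1
  rw [← h1]
  apply Finset.sum_congr rfl
  intro a _
  congr 1
  apply Finset.prod_congr rfl
  intro h _
  congr 2
  have hq : (q h : ℝ) ≠ 0 := by exact_mod_cast hq0 _
  have hx : (x h j1 : ℝ) ≠ 0 := by exact_mod_cast hx1 _
  have hbe : (b : ℝ) ^ (e h j1) ≠ 0 := by positivity
  have h3 : (x h j1 : ℝ) * (b : ℝ) ^ (e h j1) * (p h : ℝ) =
      -((x h j2 : ℝ) * (b : ℝ) ^ (e h j2) * (q h : ℝ)) := by
    exact_mod_cast hrat h
  show (p h : ℝ) / (q h : ℝ) = -((x h j2 : ℝ) * (b : ℝ) ^ (e h j2)) /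
    ((x h j1 : ℝ) * (b : ℝ) ^ (e h j1))
  rw [div_eq_div_iff hq (mul_ne_zero hx hbe)]
  linarith

end Pool.Agent.H723.QR
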