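import Mathlib
import Pool.Agent.H723.QR.Core3

/-! The codimension one subspace theorem: a finite sequence of approximations; the number of
approximations is quadratic in the parameter. -/

set_option autoImplicit false

open Finset

namespace Pool.Agent.H723.QR

open Pool.Agent.H393R2 Pool.Agent.H723.QS Pool.Agent.H723.PT

theorem le_exp_self (y : ℝ) : y ≤ Real.exp y := by
  have := Real.add_one_le_exp y; linarith

/-- the size of the parameter -/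
theorem inv_om2_le (m : ℕ) (τ : ℝ) (hτ : 0 < τ) (y : ℝ) (hy : 1 / τ ≤ y) (hm : (m : ℝ) + 2 ≤ y ^ 2)
    (hy1 : 1 ≤ y) : 1 / om2 m τ ≤ Real.exp ((7 * m + 6) * Real.log y) := by
  have hm0 : (0 : ℝ) ≤ m := Nat.cast_nonneg _
  have hy0 : 0 < y := by linarith
  have h1 : 1 / om2 m τ = (((m : ℝ) + 1) ^ 3 * (1 / τ)) ^ m * ((m : ℝ) + 2) ^ 3 := by
    unfold om2
    rw [one_div, inv_div, div_eq_mul_inv, ← inv_pow, inv_div, mul_comm, mul_one_div]
  have h3 : ((m : ℝ) + 1) ^ 3 ≤ y ^ 6 := by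
    have : y ^ 6 = (y ^ 2) ^ 3 := by ring
    rw [this]
    exact pow_le_pow_left₀ (by positivity) (by linarith) 3
  have h4 : ((m : ℝ) + 2) ^ 3 ≤ y ^ 6 := by
    have : y ^ 6 = (y ^ 2) ^ 3 := by ring
    rw [this]
    exact pow_le_pow_left₀ (by positivity) hm 3
  have h6 : ((m : ℝ) + 1) ^ 3 * (1 / τ) ≤ y ^ 7 := by
    have : y ^ 7 = y ^ 6 * y := by ring
    rw [this]
    exact mul_le_mul h3 hy (by positivity) (by positivity)
  have h7 : (((m : ℝ) + 1) ^ 3 * (1 / τ)) ^ m ≤ (y ^ 7) ^ m :=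
    pow_le_pow_left₀ (by positivity) h6 m
  rw [h1]
  calc (((m : ℝ) + 1) ^ 3 * (1 / τ)) ^ m * ((m : ℝ) + 2) ^ 3
      ≤ (y ^ 7) ^ m * y ^ 6 := mul_le_mul h7 h4 (by positivity) (by positivity)
    _ = y ^ (7 * m + 6) := by rw [← pow_mul, ← pow_add]
    _ = Real.exp ((7 * m + 6) * Real.log y) := by
        have h8 : Real.exp ((7 * m + 6) * Real.log y) =
            Real.exp (((7 * m + 6 : ℕ) : ℝ) * Real.log y) := by push_cast; ring_nf
        rw [h8, Real.exp_nat_mul, Real.exp_log hy0]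

/-- the size of the first parameter -/
theorem inv_om1_le (m : ℕ) (τ : ℝ) (hτ : 0 < τ) (y : ℝ) (hy : 1 / τ ≤ y) (hm : (m : ℝ) + 2 ≤ y ^ 2)
    (hy8 : 8 ≤ y) : 2 / om1 m τ ≤ Real.exp (8 * Real.log y) := by
  have hm0 : (0 : ℝ) ≤ m := Nat.cast_nonneg _
  have hy0 : 0 < y := by linarith
  have h1 : 2 / om1 m τ = 8 * ((m : ℝ) + 1) ^ 3 * (1 / τ) := by
    unfold om1
    field_simp
    ring
  have h3 : ((m : ℝ) + 1) ^ 3 ≤ y ^ 6 := by
    have : y ^ 6 = (y ^ 2) ^ 3 := by ring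
    rw [this]
    exact pow_le_pow_left₀ (by positivity) (by linarith) 3
  rw [h1]
  calc 8 * ((m : ℝ) + 1) ^ 3 * (1 / τ) ≤ y * y ^ 6 * y := by
        apply mul_le_mul _ hy (by positivity) (by positivity)
        exact mul_le_mul hy8 h3 (by positivity) (by positivity)
    _ = y ^ 8 := by ring
    _ = Real.exp (8 * Real.log y) := by
        have h8 : Real.exp (8 * Real.log y) = Real.exp (((8 : ℕ) : ℝ) * Real.log y) := by
          push_cast; ring_nf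
        rw [h8, Real.exp_nat_mul, Real.exp_log hy0]

/-- the choice of the parameters -/
theorem params5 (n : ℝ) (hn2 : 2 ≤ n) (C Q : ℝ) (Dg : ℕ) (hDg : 1 ≤ Dg)
    (hC : 1 ≤ C) (hQ : 0 ≤ Q) (γ : ℝ) (hγ : 0 < γ) (hγ1 : γ ≤ 1) :
    ∃ K : ℝ, 1 ≤ K ∧ ∀ c : ℝ, 1 ≤ c → ∃ (τ σ : ℝ) (m : ℕ),
      0 < τ ∧ τ ≤ 1 / 2 ∧ 0 < σ ∧ c * τ ≤ σ ∧ 40 * n * c ^ 2 * Dg ≤ σ ^ 2 * m ∧
      (2 * n + 4) * σ ≤ γ / (4 * n) ∧ 0 < m ∧
      Q * (4 * n) / γ ≤ Real.exp (K * (c ^ 2 * (1 + Real.log c))) ∧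
      2 * c / om2 m τ ≤ Real.exp (K * (c ^ 2 * (1 + Real.log c))) ∧
      Real.log C * m * (2 * c) / om2 m τ ≤ Real.exp (K * (c ^ 2 * (1 + Real.log c))) ∧
      2 / om1 m τ ≤ Real.exp (K * (1 + Real.log c)) ∧
      (m : ℝ) ≤ K * c ^ 2 := by
  obtain ⟨a, ha⟩ : ∃ a, a = 8 * n * (n + 2) / γ := ⟨_, rfl⟩
  have ha8 : 8 ≤ a := by
    rw [ha, le_div_iff₀ hγ]
    nlinarith
  have hC0 : 0 < C := by linarith
  have ha0 : 0 < a := by linarith
  have hDgR : (1 : ℝ) ≤ Dg := by exact_mod_cast hDg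
  obtain ⟨Ka, hKad⟩ : ∃ Ka, Ka = 40 * n * Dg := ⟨_, rfl⟩
  have hKa : 1 ≤ Ka := by rw [hKad]; nlinarith
  obtain ⟨a1, ha1⟩ : ∃ a1, a1 = 2 * Ka * a ^ 2 := ⟨_, rfl⟩
  have ha10 : 0 < a1 := by rw [ha1]; positivity
  obtain ⟨a3, ha3⟩ : ∃ a3, a3 = a1 + 2 + a := ⟨_, rfl⟩
  have ha31 : 1 ≤ a3 := by rw [ha3]; linarith
  have hla3 : 0 ≤ Real.log a3 := Real.log_nonneg ha31
  obtain ⟨K1, hK1⟩ : ∃ K1, K1 = (7 * a1 + 8) * (1 + Real.log a3) := ⟨_, rfl⟩
  obtain ⟨q4, hq4⟩ : ∃ q4, q4 = Q * (4 * n) / γ := ⟨_, rfl⟩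
  have hq40 : 0 ≤ q4 := by rw [hq4]; positivity
  obtain ⟨K2, hK2⟩ : ∃ K2, K2 = C + a1 + 3 + q4 := ⟨_, rfl⟩
  have hK10 : 0 ≤ K1 := by rw [hK1]; positivity
  have hK20 : 0 ≤ K2 := by rw [hK2]; linarith
  refine ⟨K1 + K2 + a1 + 1, by linarith, ?_⟩
  intro c hc
  have hc0 : 0 < c := by linarith
  have hlc : 0 ≤ Real.log c := Real.log_nonneg hc
  obtain ⟨S, hS⟩ : ∃ S, S = c ^ 2 * (1 + Real.log c) := ⟨_, rfl⟩
  have hc2S : c ^ 2 ≤ S := by rw [hS]; exact le_mul_of_one_le_right (by positivity) (by linarith)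
  have hcS : c ≤ S := by
    refine le_trans ?_ hc2S
    calc c = c ^ 1 := (pow_one c).symm
      _ ≤ _ := pow_le_pow_right₀ hc (by omega)
  have hS1 : 1 ≤ S := hc.trans hcS
  rw [← hS]
  obtain ⟨τ, hτ⟩ : ∃ τ, τ = 1 / (a * c) := ⟨_, rfl⟩
  have hac : 8 ≤ a * c := ha8.trans (le_mul_of_one_le_right (by linarith) hc)
  have hτ0 : 0 < τ := by rw [hτ]; positivity
  have hτ12 : τ ≤ 1 / 2 := by
    rw [hτ]
    apply one_div_le_one_div_of_le (by norm_num)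
    linarith
  obtain ⟨m, hm⟩ : ∃ m, m = ⌈Ka / τ ^ 2⌉₊ := ⟨_, rfl⟩
  have hKaτ : Ka / τ ^ 2 = Ka * a ^ 2 * c ^ 2 := by
    rw [hτ]; field_simp
  have hKaτ1 : 1 ≤ Ka / τ ^ 2 := by
    rw [hKaτ]
    exact one_le_mul_of_one_le_of_one_le (one_le_mul_of_one_le_of_one_le hKa
      (one_le_pow₀ (by linarith))) (one_le_pow₀ hc)
  have hm0 : 0 < m := by
    rw [hm, Nat.ceil_pos]; linarith
  have hmle : (m : ℝ) ≤ a1 * c ^ 2 := by
    have h1 : (m : ℝ) < Ka / τ ^ 2 + 1 := by rw [hm]; exact Nat.ceil_lt_add_one (by positivity)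
    have h2 : a1 * c ^ 2 = 2 * (Ka / τ ^ 2) := by
      rw [hKaτ, ha1]; ring
    rw [h2]
    linarith
  have hmge : Ka / τ ^ 2 ≤ m := by rw [hm]; exact Nat.le_ceil _
  have hω := om2_pos m τ hτ0
  have hm00 : (0 : ℝ) ≤ m := Nat.cast_nonneg _
  have hc21 : 1 ≤ c ^ 2 := one_le_pow₀ hc
  have hy1 : 1 ≤ a3 * c := one_le_mul_of_one_le_of_one_le ha31 hc
  have hy8 : 8 ≤ a3 * c := by
    have : 8 ≤ a3 := by rw [ha3]; linarith
    exact this.trans (le_mul_of_one_le_right (by linarith) hc)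
  have hyτ : 1 / τ ≤ a3 * c := by
    rw [hτ, one_div_one_div]
    apply mul_le_mul_of_nonneg_right _ hc0.le
    rw [ha3]; linarith
  have hym : (m : ℝ) + 2 ≤ (a3 * c) ^ 2 := by
    have h1 : (m : ℝ) + 2 ≤ (a1 + 2) * c ^ 2 := by rw [add_mul]; linarith
    have h2 : (a1 + 2) * c ^ 2 ≤ a3 * c ^ 2 := by
      apply mul_le_mul_of_nonneg_right _ (by positivity)
      rw [ha3]; linarith
    have h3 : a3 * c ^ 2 ≤ a3 ^ 2 * c ^ 2 := by
      apply mul_le_mul_of_nonneg_right _ (by positivity)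
      calc a3 = a3 * 1 := (mul_one _).symm
        _ ≤ a3 * a3 := mul_le_mul_of_nonneg_left ha31 (by linarith)
        _ = a3 ^ 2 := by ring
    rw [mul_pow]
    linarith
  have hlogy : Real.log (a3 * c) ≤ (1 + Real.log a3) * (1 + Real.log c) := by
    rw [Real.log_mul (by linarith) hc0.ne']
    have h3 : (1 + Real.log a3) * (1 + Real.log c) =
        1 + Real.log a3 + Real.log c + Real.log a3 * Real.log c := by ring
    have h4 : 0 ≤ Real.log a3 * Real.log c := mul_nonneg hla3 hlc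
    rw [h3]; linarith
  have hinv : 1 / om2 m τ ≤ Real.exp (K1 * S) := by
    refine (inv_om2_le m τ hτ0 (a3 * c) hyτ hym hy1).trans ?_
    apply Real.exp_le_exp.mpr
    have h1 : 7 * (m : ℝ) + 6 ≤ (7 * a1 + 8) * c ^ 2 := by
      rw [add_mul]
      have : 7 * a1 * c ^ 2 = 7 * (a1 * c ^ 2) := by ring
      linarith
    calc (7 * (m : ℝ) + 6) * Real.log (a3 * c) ≤
          ((7 * a1 + 8) * c ^ 2) * ((1 + Real.log a3) * (1 + Real.log c)) :=
          mul_le_mul h1 hlogy (Real.log_nonneg hy1) (by positivity)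
      _ = K1 * S := by rw [hK1, hS]; ring
  have hfac : ∀ f : ℝ, 0 ≤ f → f ≤ Real.exp (K2 * S) →
      f / om2 m τ ≤ Real.exp ((K1 + K2 + a1 + 1) * S) := by
    intro f h0 h1
    have h2 : f / om2 m τ = f * (1 / om2 m τ) := by rw [mul_one_div]
    rw [h2]
    calc f * (1 / om2 m τ) ≤ Real.exp (K2 * S) * Real.exp (K1 * S) :=
          mul_le_mul h1 hinv (by positivity) (Real.exp_pos _).le
      _ = Real.exp ((K1 + K2) * S) := by rw [← Real.exp_add]; congr 1; ring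
      _ ≤ _ := by
          apply Real.exp_le_exp.mpr
          apply mul_le_mul_of_nonneg_right _ (by linarith)
          linarith
  have hfac' : ∀ f : ℝ, 0 ≤ f → f ≤ Real.exp (K2 * S) →
      f ≤ Real.exp ((K1 + K2 + a1 + 1) * S) := by
    intro f hf0 hf
    refine hf.trans ?_
    apply Real.exp_le_exp.mpr
    apply mul_le_mul_of_nonneg_right _ (by linarith)
    linarith
  have hK2S : ∀ y : ℝ, y ≤ K2 → y * S ≤ K2 * S := fun y hy =>
    mul_le_mul_of_nonneg_right hy (by linarith)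
  refine ⟨τ, 1 / a, m, hτ0, hτ12, by positivity, ?_, ?_, ?_, hm0, ?_, ?_, ?_, ?_, ?_⟩
  · rw [hτ]
    apply le_of_eq
    field_simp
  · rw [hKaτ, hKad] at hmge
    have h1 : 40 * n * c ^ 2 * Dg = (1 / a) ^ 2 * (40 * n * Dg * a ^ 2 * c ^ 2) := by field_simp
    rw [h1]
    exact mul_le_mul_of_nonneg_left hmge (by positivity)
  · apply le_of_eq
    rw [ha]
    field_simp
    ring
  · rw [← hq4]
    apply hfac' _ hq40
    refine le_trans ?_ (le_exp_self _)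
    refine le_trans ?_ (hK2S q4 (by rw [hK2]; linarith))
    exact le_mul_of_one_le_right hq40 hS1
  · apply hfac
    · positivity
    · refine le_trans ?_ (le_exp_self _)
      refine le_trans ?_ (hK2S 2 (by rw [hK2]; linarith))
      linarith
  · apply hfac
    · have := Real.log_nonneg hC
      positivity
    · have h1 : Real.log C ≤ Real.exp C := by
        refine le_trans ?_ (le_exp_self C)
        exact (Real.log_le_sub_one_of_pos hC0).trans (by linarith)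
      have h2 : (m : ℝ) ≤ Real.exp (a1 * S) :=
        (hmle.trans (mul_le_mul_of_nonneg_left hc2S ha10.le)).trans (le_exp_self _)
      have h3 : 2 * c ≤ Real.exp (2 * S) := by
        refine le_trans ?_ (le_exp_self _)
        linarith
      have h4 : Real.log C * m * (2 * c) ≤ Real.exp C * Real.exp (a1 * S) * Real.exp (2 * S) := by
        apply mul_le_mul _ h3 (by positivity) (by positivity)
        exact mul_le_mul h1 h2 (Nat.cast_nonneg _) (Real.exp_pos _).le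
      refine h4.trans ?_
      rw [← Real.exp_add, ← Real.exp_add]
      apply Real.exp_le_exp.mpr
      have h5 : C ≤ C * S := le_mul_of_one_le_right hC0.le hS1
      refine le_trans ?_ (hK2S (C + a1 + 2) (by rw [hK2]; linarith))
      linarith
  · refine (inv_om1_le m τ hτ0 (a3 * c) hyτ hym hy8).trans ?_
    apply Real.exp_le_exp.mpr
    calc 8 * Real.log (a3 * c) ≤ (7 * a1 + 8) * ((1 + Real.log a3) * (1 + Real.log c)) :=
          mul_le_mul (by linarith) hlogy (Real.log_nonneg hy1) (by positivity)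
      _ = K1 * (1 + Real.log c) := by rw [hK1]; ring
      _ ≤ _ := by
          apply mul_le_mul_of_nonneg_right _ (by linarith)
          linarith
  · refine hmle.trans ?_
    apply mul_le_mul_of_nonneg_right _ (by positivity)
    linarith

theorem core_fin5 (n' : ℕ) (hn : 1 ≤ n') (Y j1 j2 : Fin (n' + 1)) (hj1 : j1 ≠ Y) (hj12 : j1 ≠ j2)
    (ξ : ℝ) (hξ : IsIntegral ℤ ξ) (cA γ : ℝ) (hcA : 1 ≤ cA) (hγ : 0 < γ) (hγ1 : γ ≤ 1) :
    ∃ K : ℝ, 1 ≤ K ∧ ∀ b : ℕ, 2 ≤ b → ∀ c : ℝ, cA ≤ c →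
      ∀ T : ℕ, K * c ^ 2 ≤ T → ∀ N : Fin T → ℝ,
      (∀ t, Real.exp (K * (c ^ 2 * (1 + Real.log c))) ≤ N t) →
      (∀ t t', t < t' → Real.exp (K * (1 + Real.log c)) * N t ≤ N t') →
      ∀ e : Fin T → Fin (n' + 1) → ℕ, (∀ t, e t Y = 0) →
      (∀ t l, (e t l : ℝ) * Real.log b ≤ c * N t) →
      ∀ (x : Fin T → Fin (n' + 1) → ℤ) (A : Fin T → Fin (n' + 1) → ℝ), (∀ t l, 0 < A t l) →
      (∀ t l, |-Real.log (A t l)| ≤ cA * N t) → (∀ t, γ * N t ≤ ∑ l, -Real.log (A t l)) →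
      ∀ w : Fin T → Fin n' → Fin (n' + 1) → ℤ, (∀ t, LinearIndependent ℤ (w t)) →
      (∀ t i, ∑ l, x t l * w t i l = 0) →
      (∀ t i l, |(w t i l : ℝ) - (if l = Y then 0 else ξ * (b : ℝ) ^ (e t l) * w t i Y)|
        ≤ A t l) →
      (∀ t, x t j1 ≠ 0) → ∀ p q : Fin T → ℤ, (∀ t, IsCoprime (p t) (q t)) →
      (∀ t, x t j1 * (b : ℤ) ^ (e t j1) * p t = -(x t j2 * (b : ℤ) ^ (e t j2) * q t)) →
      (∀ t, q t ≠ 0) →
      (∀ t, N t / c ≤ Real.log (max |(p t : ℝ)| |(q t : ℝ)|)) → False := by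
  classical
  obtain ⟨C, hC, Dg, hDg, haux⟩ := aux_gen (n' + 1) (by omega) Y ξ hξ
  set n : ℝ := ((n' + 1 : ℕ) : ℝ) with hn_def
  have hn2 : (2 : ℝ) ≤ n := by
    rw [hn_def]; exact_mod_cast (by omega : 2 ≤ n' + 1)
  set X : ℝ := max 1 |ξ| with hX
  have hX1 : 1 ≤ X := le_max_left _ _
  have hXξ : |ξ| ≤ X := le_max_right _ _
  set Q : ℝ := Real.log (2 ^ (2 * (n' + 1)) * C * (2 * X) * 2 * n) with hQ
  have hQ0 : 0 ≤ Q := by
    rw [hQ]
    apply Real.log_nonneg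
    have h1 : (1 : ℝ) ≤ 2 ^ (2 * (n' + 1)) := one_le_pow₀ (by norm_num)
    have h2 : (1 : ℝ) ≤ 2 ^ (2 * (n' + 1)) * C := by nlinarith
    have h3 : (1 : ℝ) ≤ 2 ^ (2 * (n' + 1)) * C * (2 * X) := by nlinarith
    have h4 : (1 : ℝ) ≤ 2 ^ (2 * (n' + 1)) * C * (2 * X) * 2 := by linarith
    nlinarith
  obtain ⟨K, hK1, hpar⟩ := params5 n hn2 C Q Dg hDg hC hQ0 γ hγ hγ1
  refine ⟨K, hK1, ?_⟩
  intro b hb c hc T hT N hN1 hN2 e heY he x A hApos hA hprod w hw horth hbd hx1 p q hpq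
    hrat hq0 hht
  have hc1 : 1 ≤ c := hcA.trans hc
  have hc0 : 0 < c := by linarith
  obtain ⟨τ, σ, m, hτ0, hτ12, hσ, hτσ, hmσ, hσγ, hm0, hP1, hP2, hP3, hP4, hP5⟩ := hpar c hc1
  have hNpos : ∀ t, 0 < N t := fun t => lt_of_lt_of_le (Real.exp_pos _) (hN1 t)
  have hmT : m ≤ T := by exact_mod_cast hP5.trans hT
  have hlc : 0 ≤ Real.log c := Real.log_nonneg hc1
  set tt : Fin m → Fin T := fun h => Fin.castLE hmT h with htt
  have httlt : ∀ i j : Fin m, i < j → tt i < tt j := fun i j hij => hij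
  refine core_m3 n' hn b hb ξ Y j1 j2 hj1 hj12 C hC Dg haux m hm0 τ hτ0 hτ12
    c c γ σ hc1 hc1 hγ hσ hτσ hmσ X hX1 hXξ hσγ (Real.exp (K * (c ^ 2 * (1 + Real.log c))))
    (Real.one_le_exp (by positivity)) hP1 hP2 hP3
    (fun h => N (tt h)) (fun h => hN1 _) ?_ (fun h => e (tt h)) (fun h => heY _)
    (fun h => x (tt h)) (fun h => A (tt h)) (fun h l => hApos _ _) ?_ (fun h l => he _ l)
    (fun h => hprod _) (fun h => w (tt h))
    (fun h => hw _) (fun h i => horth _ i) (fun h i l => hbd _ i l) (fun h => hx1 _)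
    (fun h => p (tt h)) (fun h => q (tt h)) (fun h => hpq _) (fun h => hrat _) (fun h => hq0 _)
    (fun h => hht _)
  · -- growth
    intro i j hij
    refine le_trans ?_ (hN2 _ _ (httlt i j hij))
    exact mul_le_mul_of_nonneg_right hP4 (hNpos _).le
  · intro h l
    exact (hA (tt h) l).trans (mul_le_mul_of_nonneg_right hc (hNpos _).le)

end Pool.Agent.H723.QR
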