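import Mathlib
import Pool.Agent.H723.QR.Merge3
import Pool.Agent.H723.QP.W1
import Pool.Agent.H723.QP.W2
import Pool.Agent.H723.QP.W3
import Pool.Agent.H723.QP.W4a
import Pool.Agent.H723.QP.W4b

/-! The exceptional scales of windows of digits; the main inequalities. -/

set_option autoImplicit false

open Finset

namespace Pool.Agent.H723.QR

open Pool.Agent.H723.LZ Pool.Agent.H723.QP

theorem powlog_scale (p : ℕ) (C : ℝ) (hC : 1 ≤ C) :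
    (4 * C) ^ p * (1 + Real.log (4 * C)) ≤
      (4 ^ p * (1 + Real.log 4)) * (C ^ p * (1 + Real.log C)) := by
  have hl4 : 0 ≤ Real.log 4 := Real.log_nonneg (by norm_num)
  have hlC : 0 ≤ Real.log C := Real.log_nonneg hC
  have h1 : 1 + Real.log (4 * C) ≤ (1 + Real.log 4) * (1 + Real.log C) := by
    rw [Real.log_mul (by norm_num) (by linarith)]
    have h2 : (1 + Real.log 4) * (1 + Real.log C) =
        1 + Real.log 4 + Real.log C + Real.log 4 * Real.log C := by ring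
    have h3 := mul_nonneg hl4 hlC
    rw [h2]; linarith
  calc (4 * C) ^ p * (1 + Real.log (4 * C)) ≤
        (4 * C) ^ p * ((1 + Real.log 4) * (1 + Real.log C)) :=
        mul_le_mul_of_nonneg_left h1 (by positivity)
    _ = _ := by rw [mul_pow]; ring

/-- windows of digits which give approximations depend at few scales only -/
theorem thin_of_win (ξ : ℝ) (p : ℕ) (A : ℝ) (hA : 0 ≤ A) (P : ℕ → ℝ → ℕ → Prop)
    (Dp : ℕ → ℝ → ℕ → Prop) (M0 : ℕ)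
    (h : ∀ b : ℕ, 2 ≤ b → ∀ ρ : ℝ, 1 ≤ ρ → Thin (P b ρ) (A * (ρ ^ p * (1 + Real.log ρ))))
    (hw : ∀ b : ℕ, 2 ≤ b → ∀ C : ℝ, 1 ≤ C → ∀ m : ℕ, M0 ≤ m → Dp b C m → P b (4 * C) (m / 2)) :
    ∃ A' : ℝ, 0 ≤ A' ∧ ∀ b : ℕ, 2 ≤ b → ∀ C : ℝ, 1 ≤ C →
      Thin (Dp b C) (A' * (C ^ p * (1 + Real.log C))) := by
  have hl4 : 0 ≤ Real.log 4 := Real.log_nonneg (by norm_num)
  refine ⟨A * (4 ^ p * (1 + Real.log 4)) + (M0 + 2 : ℕ), by positivity, ?_⟩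
  intro b hb C hC
  refine ((h b hb (4 * C) (by linarith)).div 2 M0 (by norm_num)
    (fun m hm _ hd => hw b hb C hC m hm hd)).mono (fun L _ h => h) ?_
  rw [add_mul]
  apply add_le_add
  · calc A * ((4 * C) ^ p * (1 + Real.log (4 * C))) ≤
          A * ((4 ^ p * (1 + Real.log 4)) * (C ^ p * (1 + Real.log C))) :=
          mul_le_mul_of_nonneg_left (powlog_scale p C hC) hA
      _ = _ := by ring
  · exact constlog_up _ C (Nat.cast_nonneg _) hC p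

/-- **Constant windows of digits occur at few scales, uniformly in the base.** -/
theorem thin0 (ξ : ℝ) (hξ : IsAlgebraic ℚ ξ) (hirr : Irrational ξ) :
    ∃ A : ℝ, 0 ≤ A ∧ ∀ b : ℕ, 2 ≤ b → ∀ C : ℝ, 1 ≤ C →
      Thin (Dep0 b ξ C) (A * (C ^ 2 * (1 + Real.log C))) := by
  obtain ⟨ε, hε, A, hA, h⟩ := mergeR' ξ hξ hirr 1
  obtain ⟨M0, hM⟩ := ex_of_dep0 ε hε
  exact thin_of_win ξ 2 A hA (fun b ρ => Ex b ξ 1 (1 / 2) ε ρ) (fun b C => Dep0 b ξ C) M0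
    (fun b hb ρ hρ => h b hb ρ hρ) (fun b hb C hC m hm hd => hM b hb ξ C hC m hm hd)

/-- **Affinely dependent windows of digits occur at few scales, uniformly in the base.** -/
theorem thin1 (ξ : ℝ) (hξ : IsAlgebraic ℚ ξ) (hirr : Irrational ξ) :
    ∃ A : ℝ, 0 ≤ A ∧ ∀ b : ℕ, 2 ≤ b → ∀ C : ℝ, 1 ≤ C →
      Thin (Dep1 b ξ C) (A * (C ^ 2 * (1 + Real.log C))) := by
  obtain ⟨ε, hε, A, hA, h⟩ := mergeR' ξ hξ hirr 2
  obtain ⟨M0, hM⟩ := ex_of_dep1 ε hε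
  exact thin_of_win ξ 2 A hA (fun b ρ => Ex b ξ 2 (1 / 2) ε ρ) (fun b C => Dep1 b ξ C) M0
    (fun b hb ρ hρ => h b hb ρ hρ) (fun b hb C hC m hm hd => hM b hb ξ C hC m hm hd)

theorem ex_mono {b : ℕ} {ξ : ℝ} {D : ℕ} {η ε ε' ρ : ℝ} {L : ℕ} (hb : 2 ≤ b) (hε : ε ≤ ε')
    (h : Ex b ξ D η ε ρ L) : Ex b ξ D η ε' ρ L := by
  have hlogb : 0 ≤ Real.log b := Real.log_nonneg (by exact_mod_cast (by omega : 1 ≤ b))
  obtain ⟨e, he1, he2, lam, hlam, h2⟩ := h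
  refine ⟨e, he1, he2, lam, fun j => (hlam j).trans (Real.exp_le_exp.mpr ?_), h2⟩
  exact mul_le_mul_of_nonneg_right hε (by positivity)

theorem ex_union (ξ : ℝ) (hξ : IsAlgebraic ℚ ξ) (hirr : Irrational ξ) (D : ℕ) :
    ∃ ε : ℝ, 0 < ε ∧ ∃ A : ℝ, 0 ≤ A ∧ ∀ b : ℕ, 2 ≤ b → ∀ ρ : ℝ, 1 ≤ ρ →
      Thin (fun L => ∃ s, s ≤ D ∧ Ex b ξ s (1 / 2) ε ρ L)
        (A * (ρ ^ 2 * (1 + Real.log ρ))) := by
  induction D with
  | zero =>
    obtain ⟨ε, hε, A, hA, h⟩ := mergeR' ξ hξ hirr 0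
    refine ⟨ε, hε, A, hA, fun b hb ρ hρ => (h b hb ρ hρ).mono ?_ le_rfl⟩
    rintro L _ ⟨s, hs, h1⟩
    obtain rfl : s = 0 := by omega
    exact h1
  | succ D ih =>
    obtain ⟨ε, hε, A, hA, h⟩ := mergeR' ξ hξ hirr (D + 1)
    obtain ⟨ε', hε', A', hA', h'⟩ := ih
    refine ⟨min ε ε', lt_min hε hε', A + A', by positivity, fun b hb ρ hρ =>
      ((h b hb ρ hρ).or (h' b hb ρ hρ)).mono ?_ ?_⟩
    · rintro L _ ⟨s, hs, h1⟩
      rcases Nat.lt_or_ge s (D + 1) with h4 | h4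
      · exact Or.inr ⟨s, by omega, ex_mono hb (min_le_right _ _) h1⟩
      · obtain rfl : s = D + 1 := by omega
        exact Or.inl (ex_mono hb (min_le_left _ _) h1)
    · rw [add_mul]

/-- **Linearly dependent windows of digits occur at few scales, uniformly in the base.** -/
theorem thinR (D : ℕ) (ξ : ℝ) (hξ : IsAlgebraic ℚ ξ) (hirr : Irrational ξ) :
    ∃ A : ℝ, 0 ≤ A ∧ ∀ b : ℕ, 2 ≤ b → ∀ C : ℝ, 1 ≤ C →
      Thin (DepR b ξ D C) (A * (C ^ 2 * (1 + Real.log C))) := by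
  obtain ⟨D', hD'⟩ := ex_of_depR D
  obtain ⟨ε, hε, A, hA, h⟩ := ex_union ξ hξ hirr D'
  obtain ⟨M0, hM⟩ := hD' ε hε
  exact thin_of_win ξ 2 A hA (fun b ρ L => ∃ s, s ≤ D' ∧ Ex b ξ s (1 / 2) ε ρ L)
    (fun b C => DepR b ξ D C) M0
    (fun b hb ρ hρ => h b hb ρ hρ) (fun b hb C hC m hm hd => hM b hb ξ C hC m hm hd)

/-- no errors -/
theorem main_a (p : ℕ) (hp : 1 ≤ p) (A : ℝ) (hA : 0 ≤ A) :
    ∃ A' : ℝ, ∀ (b : ℕ) (ξ : ℝ) (k : ℕ) (Dp : ℝ → ℕ → Prop)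
      (Cp : (ℕ → ℝ) → ℕ → ℕ → Prop), Loc b ξ k Dp Cp →
      (∀ C : ℝ, 1 ≤ C → Thin (Dp C) (A * (C ^ p * (1 + Real.log C)))) →
      ∀ (N z : ℕ) (v : ℕ → ℝ), Brk Cp v N z → (∀ t < N, v t = (dg b ξ (t + 1) : ℝ)) →
      ∀ ρ : ℕ, A' * (2 ^ (p * ρ) * ((ρ : ℝ) + 1)) ≤ Nat.log 2 N →
        2 ^ ρ * Nat.log 2 N ≤ 8 * z := by
  refine ⟨16 * 8 ^ p * A + 4, ?_⟩
  intro b ξ k Dp Cp hloc hthin N z v hB hv ρ hJ
  have hρ0 : (0 : ℝ) ≤ ρ := Nat.cast_nonneg _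
  obtain ⟨C, hC⟩ : ∃ C : ℝ, C = ((2 ^ (ρ + 3) * (k * 0 + 1) : ℕ) : ℝ) := ⟨_, rfl⟩
  have hC' : C = 8 * 2 ^ ρ := by rw [hC]; push_cast; rw [pow_add]; ring
  have h2ρ : (1 : ℝ) ≤ 2 ^ ρ := one_le_pow₀ (by norm_num)
  have hC1 : 1 ≤ C := by rw [hC']; linarith
  have hlogC : 1 + Real.log C ≤ 4 * (ρ + 1) := by
    have h1 : Real.log C = (3 + ρ) * Real.log 2 := by
      rw [hC', show (8 : ℝ) = 2 ^ 3 by norm_num, ← pow_add, Real.log_pow]
      push_cast; ring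
    have h2 : Real.log 2 ≤ 1 := by
      have := Real.log_two_lt_d9; linarith
    have h3 : (3 + (ρ : ℝ)) * Real.log 2 ≤ (3 + ρ) * 1 := mul_le_mul_of_nonneg_left h2 (by linarith)
    rw [h1]; linarith
  have hCp : C ^ p = 8 ^ p * 2 ^ (p * ρ) := by
    rw [hC', mul_pow, ← pow_mul, mul_comm ρ p]
  obtain ⟨x, hx⟩ : ∃ x : ℝ, x = 2 ^ (p * ρ) := ⟨_, rfl⟩
  have hx1 : 1 ≤ x := by rw [hx]; exact one_le_pow₀ (by norm_num)
  have hF : A * (C ^ p * (1 + Real.log C)) ≤ 4 * 8 ^ p * A * (x * (ρ + 1)) := by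
    calc A * (C ^ p * (1 + Real.log C)) ≤ A * (C ^ p * (4 * (ρ + 1))) :=
          mul_le_mul_of_nonneg_left (mul_le_mul_of_nonneg_left hlogC (by positivity)) hA
      _ = _ := by rw [hCp, ← hx]; ring
  rw [← hx] at hJ
  have hxρ : (ρ : ℝ) + 1 ≤ x * (ρ + 1) := le_mul_of_one_le_left (by linarith) hx1
  have hJ' : (16 * 8 ^ p * A + 4) * (x * ((ρ : ℝ) + 1)) =
      4 * (4 * 8 ^ p * A * (x * (ρ + 1))) + 4 * (x * (ρ + 1)) := by ring
  rw [hJ'] at hJ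
  have hnn : 0 ≤ 4 * (4 * 8 ^ p * A * (x * (ρ + 1))) := by positivity
  have hmain := exc_gen hloc 0 ρ N z v hB (A * (C ^ p * (1 + Real.log C))) (by
      rw [← hC]; exact hthin C hC1) (by
      have h1 : ((2 * (ρ + 1 + (k * 0 + 1)) : ℕ) : ℝ) ≤ Nat.log 2 N := by
        push_cast
        linarith
      exact_mod_cast h1) (by
      push_cast
      linarith)
  have hempty : {t ∈ Finset.range N | v t ≠ (dg b ξ (t + 1) : ℝ)} = ∅ := by
    rw [Finset.filter_eq_empty_iff]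
    intro t ht
    push Not
    exact hv t (Finset.mem_range.mp ht)
  rw [hempty] at hmain
  simp only [Finset.card_empty, Nat.mul_zero, Nat.add_zero, Nat.zero_add, Nat.one_mul] at hmain
  rw [Nat.mul_comm]
  exact hmain

/-- with errors -/
theorem main_b (p : ℕ) (hp : 1 ≤ p) (A : ℝ) (hA : 0 ≤ A) (k : ℕ) :
    ∃ A' : ℝ, ∀ (b : ℕ) (ξ : ℝ) (Dp : ℝ → ℕ → Prop)
      (Cp : (ℕ → ℝ) → ℕ → ℕ → Prop), Loc b ξ k Dp Cp →
      (∀ C : ℝ, 1 ≤ C → Thin (Dp C) (A * (C ^ p * (1 + Real.log C)))) →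
      ∀ (N z : ℕ) (v : ℕ → ℝ), Brk Cp v N z →
      ∀ ρ : ℕ, A' * (2 ^ (2 * p * ρ) * ((ρ : ℝ) + 2) ^ (p + 1)) ≤ Nat.log 2 N →
        2 ^ ρ * Nat.log 2 N ≤ 8 * (z + #{t ∈ Finset.range N | v t ≠ (dg b ξ (t + 1) : ℝ)}) := by
  obtain ⟨B, hB⟩ : ∃ B : ℝ, B = 8 * (k + 1) := ⟨_, rfl⟩
  have hk0 : (0 : ℝ) ≤ k := Nat.cast_nonneg _
  have hB1 : 1 ≤ B := by rw [hB]; linarith
  have hlB : 0 ≤ Real.log B := Real.log_nonneg hB1
  refine ⟨4 * (A * B ^ p * (4 + Real.log B)) + 4 * (k + 2), ?_⟩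
  intro b ξ Dp Cp hloc hthin N z v hBrk ρ hJ
  have hρ0 : (0 : ℝ) ≤ ρ := Nat.cast_nonneg _
  obtain ⟨E, hE⟩ : ∃ E : ℕ, E = 2 ^ ρ * (ρ + 2) := ⟨_, rfl⟩
  obtain ⟨C, hC⟩ : ∃ C : ℝ, C = ((2 ^ (ρ + 3) * (k * E + 1) : ℕ) : ℝ) := ⟨_, rfl⟩
  obtain ⟨y, hy⟩ : ∃ y : ℝ, y = 2 ^ ρ := ⟨_, rfl⟩
  have hy1 : (1 : ℝ) ≤ y := by rw [hy]; exact one_le_pow₀ (by norm_num)
  have hER : (E : ℝ) = y * (ρ + 2) := by rw [hE, hy]; push_cast; ring
  have hE1 : (1 : ℝ) ≤ E := by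
    rw [hER]; exact one_le_mul_of_one_le_of_one_le hy1 (by linarith)
  have hQle : (k : ℝ) * E + 1 ≤ (k + 1) * (y * (ρ + 2)) := by
    rw [← hER]; linarith
  have hCeq : C = 8 * y * (k * E + 1) := by rw [hC, hy]; push_cast; rw [pow_add]; ring
  have hC1 : 1 ≤ C := by
    rw [hCeq]
    apply one_le_mul_of_one_le_of_one_le (by linarith)
    have : (0 : ℝ) ≤ k * E := by positivity
    linarith
  have hCle : C ≤ B * (y ^ 2 * (ρ + 2)) := by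
    rw [hCeq, hB]
    calc 8 * y * (k * E + 1) ≤ 8 * y * ((k + 1) * (y * (ρ + 2))) :=
          mul_le_mul_of_nonneg_left hQle (by linarith)
      _ = _ := by ring
  have hlogy : Real.log y = ρ * Real.log 2 := by rw [hy, Real.log_pow]
  have hlog2 : Real.log 2 ≤ 1 := by have := Real.log_two_lt_d9; linarith
  have hlog20 : 0 ≤ Real.log 2 := Real.log_nonneg (by norm_num)
  have hlogC : 1 + Real.log C ≤ (4 + Real.log B) * (ρ + 2) := by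
    have h1 : Real.log C ≤ Real.log (B * (y ^ 2 * (ρ + 2))) :=
      Real.log_le_log (by linarith) hCle
    have h2 : Real.log (B * (y ^ 2 * (ρ + 2))) =
        Real.log B + (2 * Real.log y + Real.log (ρ + 2)) := by
      rw [Real.log_mul (by linarith) (by positivity), Real.log_mul (by positivity) (by linarith),
        Real.log_pow]
      push_cast; ring
    have h3 : Real.log ((ρ : ℝ) + 2) ≤ ρ + 2 :=
      (Real.log_le_sub_one_of_pos (by linarith)).trans (by linarith)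
    have h4 : (ρ : ℝ) * Real.log 2 ≤ ρ * 1 := mul_le_mul_of_nonneg_left hlog2 hρ0
    have h5 : (4 + Real.log B) * ((ρ : ℝ) + 2) = 4 * ρ + 8 + Real.log B * ρ + 2 * Real.log B := by
      ring
    have h6 : 0 ≤ Real.log B * ρ := mul_nonneg hlB hρ0
    rw [h5]
    rw [h2, hlogy] at h1
    linarith
  obtain ⟨x, hx⟩ : ∃ x : ℝ, x = 2 ^ (2 * p * ρ) * ((ρ : ℝ) + 2) ^ (p + 1) := ⟨_, rfl⟩
  have hxy : x = (y ^ 2 * (ρ + 2)) ^ p * (ρ + 2) := by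
    rw [hx, hy, mul_pow, ← pow_mul, ← pow_mul, pow_succ ((ρ : ℝ) + 2) p]
    rw [show ρ * (2 * p) = 2 * p * ρ by ring]
    ring
  have hyρ1 : 1 ≤ y ^ 2 * (ρ + 2) :=
    one_le_mul_of_one_le_of_one_le (one_le_pow₀ hy1) (by linarith)
  have hyx : y * (ρ + 2) ≤ x := by
    rw [hxy]
    have h1 : y ≤ (y ^ 2 * (ρ + 2)) ^ p := by
      have h2 : y ≤ y ^ 2 * (ρ + 2) := by
        calc y = y ^ 1 * 1 := by ring
          _ ≤ y ^ 2 * (ρ + 2) :=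
            mul_le_mul (pow_le_pow_right₀ hy1 (by norm_num)) (by linarith) (by norm_num)
              (by positivity)
      refine h2.trans ?_
      calc y ^ 2 * (ρ + 2) = (y ^ 2 * (ρ + 2)) ^ 1 := (pow_one _).symm
        _ ≤ _ := pow_le_pow_right₀ hyρ1 hp
    exact mul_le_mul_of_nonneg_right h1 (by linarith)
  have hF : A * (C ^ p * (1 + Real.log C)) ≤ A * B ^ p * (4 + Real.log B) * x := by
    have h1 : C ^ p ≤ (B * (y ^ 2 * (ρ + 2))) ^ p := pow_le_pow_left₀ (by linarith) hCle p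
    have hl0 : 0 ≤ 1 + Real.log C := by have := Real.log_nonneg hC1; linarith
    calc A * (C ^ p * (1 + Real.log C)) ≤
          A * ((B * (y ^ 2 * (ρ + 2))) ^ p * ((4 + Real.log B) * (ρ + 2))) := by
          apply mul_le_mul_of_nonneg_left _ hA
          exact mul_le_mul h1 hlogC hl0 (by positivity)
      _ = _ := by rw [hxy, mul_pow B]; ring
  rw [← hx] at hJ
  have hx1 : 1 ≤ x := by
    refine le_trans ?_ hyx
    exact one_le_mul_of_one_le_of_one_le hy1 (by linarith)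
  have hρx : (ρ : ℝ) + 2 ≤ x := by
    refine le_trans ?_ hyx
    exact le_mul_of_one_le_left (by linarith) hy1
  have hQx : (k : ℝ) * E + 1 ≤ (k + 1) * x :=
    hQle.trans (mul_le_mul_of_nonneg_left hyx (by linarith))
  have hAx : 0 ≤ A * B ^ p * (4 + Real.log B) * x := by positivity
  have hJ' : (4 * (A * B ^ p * (4 + Real.log B)) + 4 * (k + 2)) * x =
      4 * (A * B ^ p * (4 + Real.log B) * x) + 4 * ((k + 1) * x) + 4 * x := by ring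
  rw [hJ'] at hJ
  have hmain := exc_gen hloc E ρ N z v hBrk (A * (C ^ p * (1 + Real.log C))) (by
      rw [← hC]; exact hthin C hC1) (by
      have h1 : ((2 * (ρ + 1 + (k * E + 1)) : ℕ) : ℝ) ≤ Nat.log 2 N := by
        push_cast
        linarith
      exact_mod_cast h1) (by
      push_cast
      linarith)
  obtain ⟨r, hr⟩ : ∃ r, r = #{t ∈ Finset.range N | v t ≠ (dg b ξ (t + 1) : ℝ)} := ⟨_, rfl⟩
  rw [← hr] at hmain ⊢
  have h4 : (2 ^ ρ * Nat.log 2 N) * (E + 1) ≤ (8 * (z + r)) * (E + 1) := by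
    calc (2 ^ ρ * Nat.log 2 N) * (E + 1) = Nat.log 2 N * ((E + 1) * 2 ^ ρ) := by ring
      _ ≤ 8 * ((E + 1) * z) + 4 * (2 ^ ρ * ((ρ + 2) * r)) := hmain
      _ = 8 * ((E + 1) * z) + 4 * (E * r) := by rw [hE]; ring
      _ ≤ 8 * ((E + 1) * z) + 8 * ((E + 1) * r) := by
          apply Nat.add_le_add_left
          exact Nat.mul_le_mul (by norm_num) (Nat.mul_le_mul_right _ (by omega))
      _ = _ := by ring
  exact Nat.le_of_mul_le_mul_right h4 (by omega)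

end Pool.Agent.H723.QR
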