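import Mathlib
import Pool.Agent.H723.QR.MainR
import Pool.Agent.H723.QR.X1

/-! The rates of growth. -/

set_option autoImplicit false

open Finset

namespace Pool.Agent.H723.QR

open Pool.Agent.H723.LZ Pool.Agent.H723.QP

/-- affine copies of `D` windows -/
theorem finA (D : ℕ) (ξ : ℝ) (hξ : IsAlgebraic ℚ ξ) (hirr : Irrational ξ) :
    ∃ c : ℝ, 0 < c ∧ ∃ N₀ : ℕ, ∀ b : ℕ, 2 ≤ b → ∀ N ≥ N₀, ∀ (v : ℕ → ℝ) (z : ℕ),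
      Produces D v N z → (∀ t < N, v t = (dg b ξ (t + 1) : ℝ)) →
      c * (Real.log N ^ (3 / 2 : ℝ) / Real.log (Real.log N) ^ (1 / 2 : ℝ)) ≤ z := by
  obtain ⟨A, hA, hthin⟩ := thinR (2 * D + 1 + 1) ξ hξ hirr
  obtain ⟨A', h⟩ := main_a 2 (by norm_num) A hA
  obtain ⟨c, hc, N₀, hr⟩ := rate_c 2 1 (by norm_num) (max A' 0)
  have e1 : (1 : ℝ) + 1 / ((2 : ℕ) : ℝ) = 3 / 2 := by norm_num
  have e2 : ((1 : ℕ) : ℝ) / ((2 : ℕ) : ℝ) = 1 / 2 := by norm_num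
  rw [e1, e2] at hr
  refine ⟨c, hc, N₀, fun b hb N hN v z hP hv => hr N hN z (fun ρ hρ => ?_)⟩
  refine h b ξ (2 * D + 1 + 1) (DepR b ξ (2 * D + 1 + 1)) (LinCopy (2 * D + 1))
    (locR b ξ (2 * D + 1)) (fun C hC => hthin b hb C hC) N z v (brkR hP) hv ρ ?_
  refine le_trans ?_ hρ
  have h2 : (0 : ℝ) < 2 ^ (2 * ρ) := by positivity
  have h3 : (0 : ℝ) ≤ (ρ : ℝ) := Nat.cast_nonneg _
  have h4 : (2 : ℝ) ^ (2 * ρ) * ((ρ : ℝ) + 1) ≤ 2 ^ (2 * ρ) * ((ρ : ℝ) + 2) ^ 1 := by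
    rw [pow_one]
    exact mul_le_mul_of_nonneg_left (by linarith) h2.le
  exact mul_le_mul (le_max_left _ _) h4 (by positivity) (le_max_right _ _)

/-- affine copies of `D` windows, with errors -/
theorem finE (D : ℕ) (ξ : ℝ) (hξ : IsAlgebraic ℚ ξ) (hirr : Irrational ξ) :
    ∃ c : ℝ, 0 < c ∧ ∃ N₀ : ℕ, ∀ b : ℕ, 2 ≤ b → ∀ N ≥ N₀, ∀ (v : ℕ → ℝ) (z : ℕ),
      Produces D v N z →
      c * (Real.log N ^ (5 / 4 : ℝ) / Real.log (Real.log N) ^ (3 / 4 : ℝ)) ≤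
        ((z + #{t ∈ Finset.range N | v t ≠ (dg b ξ (t + 1) : ℝ)} : ℕ) : ℝ) := by
  obtain ⟨A, hA, hthin⟩ := thinR (2 * D + 1 + 1) ξ hξ hirr
  obtain ⟨A', h⟩ := main_b 2 (by norm_num) A hA (2 * D + 1 + 1)
  obtain ⟨c, hc, N₀, hr⟩ := rate_c 4 3 (by norm_num) A'
  have e1 : (1 : ℝ) + 1 / ((4 : ℕ) : ℝ) = 5 / 4 := by norm_num
  have e2 : ((3 : ℕ) : ℝ) / ((4 : ℕ) : ℝ) = 3 / 4 := by norm_num
  rw [e1, e2] at hr
  refine ⟨c, hc, N₀, fun b hb N hN v z hP => hr N hN _ (fun ρ hρ => ?_)⟩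
  exact h b ξ (DepR b ξ (2 * D + 1 + 1)) (LinCopy (2 * D + 1)) (locR b ξ (2 * D + 1))
    (fun C hC => hthin b hb C hC) N z v (brkR hP) ρ hρ

end Pool.Agent.H723.QR
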