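import Mathlib
import Pool.Agent.H723.QR.MainR

/-! Block complexity at almost all dyadic scales. -/

set_option autoImplicit false

open Finset

namespace Pool.Agent.H723.QR

open Pool.Agent.H723.QP

/-- the blocks of `n` consecutive digits -/
noncomputable def blk (b : ℕ) (ξ : ℝ) (n t : ℕ) : Fin n → ℤ := fun i => dg b ξ (t + i + 1)

theorem blk_finite {b : ℕ} (hb : 2 ≤ b) (ξ : ℝ) (n : ℕ) : (Set.range (blk b ξ n)).Finite := by
  classical
  refine (Set.finite_Icc (fun _ : Fin n => (0 : ℤ)) (fun _ => (b : ℤ))).subset ?_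
  rintro w ⟨t, rfl⟩
  exact ⟨fun i => dg_nonneg hb ξ _, fun i => (dg_lt hb ξ _).le⟩

/-- few different blocks: two of the first blocks are equal, hence dependent -/
theorem depR_of_few {b : ℕ} (hb : 2 ≤ b) (ξ : ℝ) (n K : ℕ)
    (h : (Set.range (blk b ξ n)).ncard ≤ K * n) : DepR b ξ 2 K n := by
  classical
  have hfin := blk_finite hb ξ n
  have hnot : ¬ Set.InjOn (blk b ξ n) (Finset.range (K * n + 1) : Set ℕ) := by
    intro hinj
    have h1 : (blk b ξ n '' (Finset.range (K * n + 1) : Set ℕ)).ncard = K * n + 1 := by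
      rw [hinj.ncard_image, Set.ncard_coe_finset, Finset.card_range]
    have h2 : (blk b ξ n '' (Finset.range (K * n + 1) : Set ℕ)).ncard ≤
        (Set.range (blk b ξ n)).ncard := Set.ncard_le_ncard (Set.image_subset_range _ _) hfin
    omega
  have h3 : ∃ t t' : ℕ, t' < t ∧ t ≤ K * n ∧ blk b ξ n t = blk b ξ n t' := by
    by_contra hcon
    push Not at hcon
    apply hnot
    intro x hx y hy hxy
    rw [Finset.mem_coe, Finset.mem_range] at hx hy
    rcases lt_trichotomy x y with hlt | heq | hlt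
    · exact absurd hxy.symm (hcon y x hlt (by omega))
    · exact heq
    · exact absurd hxy (hcon x y hlt (by omega))
  obtain ⟨t, t', htt, htK, heq⟩ := h3
  have htR : (t : ℝ) ≤ K * n := by exact_mod_cast htK
  have htR' : (t' : ℝ) ≤ K * n := by
    have : (t' : ℝ) ≤ t := by exact_mod_cast htt.le
    linarith
  refine ⟨2, le_rfl, ![t, t'], ?_, ?_, ?_⟩
  · intro i j hij
    fin_cases i <;> fin_cases j <;> simp at hij ⊢ <;> omega
  · intro j
    fin_cases j
    · simpa using htR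
    · simpa using htR'
  · intro hli
    have h4 : (0 : Fin 2) = 1 := hli.injective (by
      funext i
      have h5 := congrFun heq i
      simp only [blk] at h5
      simp [h5])
    exact absurd h4 (by decide)

/-- from the exceptional scales to the size of `p (2 ^ j)` -/
theorem few_bad (A : ℝ) (hA : 0 ≤ A) (ε : ℝ) (hε : 0 < ε) :
    ∃ c : ℝ, 0 < c ∧ ∃ J₀ : ℕ, ∀ J ≥ J₀, ∀ p : ℕ → ℕ,
      (∀ K : ℕ, 1 ≤ K → (#{j ∈ Finset.range (J + 1) | p j ≤ K * 2 ^ j} : ℝ) ≤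
        A * ((K : ℝ) ^ 2 * (1 + Real.log K))) →
      (#{j ∈ Finset.range (J + 1) |
        (p j : ℝ) < c * ((2 : ℝ) ^ j * ((J : ℝ) / Real.log J) ^ (1 / 2 : ℝ))} : ℝ) ≤ ε * J := by
  obtain ⟨c, hc⟩ : ∃ c : ℝ, c = min (1 / 2) (Real.sqrt (ε / (6 * (A + 1)))) := ⟨_, rfl⟩
  have hc0 : 0 < c := by
    rw [hc]; exact lt_min (by norm_num) (Real.sqrt_pos.mpr (by positivity))
  have hc2 : c ≤ 1 / 2 := by rw [hc]; exact min_le_left _ _
  have hc3 : c ^ 2 ≤ ε / (6 * (A + 1)) := by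
    have h1 : c ≤ Real.sqrt (ε / (6 * (A + 1))) := by rw [hc]; exact min_le_right _ _
    have h2 := pow_le_pow_left₀ hc0.le h1 2
    rwa [Real.sq_sqrt (by positivity)] at h2
  have hc4 : 6 * A * c ^ 2 ≤ ε := by
    rw [le_div_iff₀ (by positivity)] at hc3
    nlinarith [sq_nonneg c]
  refine ⟨c, hc0, max 16 ⌈4 / c ^ 4⌉₊, ?_⟩
  intro J hJ p hp
  have hJ16 : 16 ≤ J := (le_max_left _ _).trans hJ
  have hJc : 4 / c ^ 4 ≤ (J : ℝ) :=
    (Nat.le_ceil _).trans (by exact_mod_cast (le_max_right _ _).trans hJ)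
  have hJR : (16 : ℝ) ≤ J := by exact_mod_cast hJ16
  have hJ0 : (0 : ℝ) < J := by linarith
  obtain ⟨Λ, hΛ⟩ : ∃ Λ, Λ = Real.log J := ⟨_, rfl⟩
  have hΛ1 : 1 ≤ Λ := by
    rw [hΛ, Real.le_log_iff_exp_le hJ0]
    have := Real.exp_one_lt_d9
    linarith
  have hΛs : Λ ≤ 2 * Real.sqrt J := by
    have h1 : Real.log J = 2 * Real.log (Real.sqrt J) := by
      rw [Real.log_sqrt hJ0.le]; ring
    have h2 := Real.log_le_sub_one_of_pos (Real.sqrt_pos.mpr hJ0)
    rw [hΛ, h1]; linarith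
  obtain ⟨X, hX⟩ : ∃ X : ℝ, X = ((J : ℝ) / Λ) ^ (1 / 2 : ℝ) := ⟨_, rfl⟩
  have hX0 : 0 < X := by rw [hX]; exact Real.rpow_pos_of_pos (by positivity) _
  have hX2 : X ^ 2 = J / Λ := by
    rw [hX, ← Real.sqrt_eq_rpow, Real.sq_sqrt (by positivity)]
  have hXc : 1 ≤ c * X := by
    have h1 : Real.sqrt J / 2 ≤ J / Λ := by
      rw [div_le_div_iff₀ (by norm_num) (by linarith)]
      have h2 : Real.sqrt J * Real.sqrt J = J := Real.mul_self_sqrt hJ0.le
      calc Real.sqrt J * Λ ≤ Real.sqrt J * (2 * Real.sqrt J) :=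
            mul_le_mul_of_nonneg_left hΛs (Real.sqrt_nonneg _)
        _ = (Real.sqrt J * Real.sqrt J) * 2 := by ring
        _ = J * 2 := by rw [h2]
    have h2 : 2 / c ^ 2 ≤ Real.sqrt J := by
      apply Real.le_sqrt_of_sq_le
      have : (2 / c ^ 2) ^ 2 = 4 / c ^ 4 := by rw [div_pow]; ring
      rw [this]; exact hJc
    have h3 : 1 / c ^ 2 ≤ X ^ 2 := by
      rw [hX2]
      have : 1 / c ^ 2 = (2 / c ^ 2) / 2 := by ring
      rw [this]; linarith
    have h4 : 1 ≤ (c * X) ^ 2 := by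
      rw [mul_pow]
      rw [div_le_iff₀ (by positivity)] at h3
      linarith
    by_contra hcon
    push Not at hcon
    have h5 : 0 < c * X := by positivity
    nlinarith
  obtain ⟨K, hK⟩ : ∃ K : ℕ, K = ⌈c * X⌉₊ := ⟨_, rfl⟩
  have hKge : c * X ≤ K := by rw [hK]; exact Nat.le_ceil _
  have hKlt : (K : ℝ) < c * X + 1 := by rw [hK]; exact Nat.ceil_lt_add_one (by positivity)
  have hK1 : 1 ≤ K := by
    have : (1 : ℝ) ≤ K := hXc.trans hKge
    exact_mod_cast this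
  have hKR : (1 : ℝ) ≤ K := by exact_mod_cast hK1
  have hK2 : (K : ℝ) ≤ 2 * c * X := by linarith
  have hKX : (K : ℝ) ≤ X := by nlinarith
  have hlogK : 1 + Real.log K ≤ 3 / 2 * Λ := by
    have h1 : Real.log K ≤ Real.log X := Real.log_le_log (by linarith) hKX
    have h2 : Real.log (X ^ 2) ≤ Real.log J := by
      apply Real.log_le_log (by positivity)
      rw [hX2]
      exact div_le_self hJ0.le hΛ1
    rw [Real.log_pow] at h2
    push_cast at h2
    rw [← hΛ] at h2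
    linarith
  have h1 := hp K hK1
  rw [← hΛ, ← hX]
  have hsub : {j ∈ Finset.range (J + 1) | (p j : ℝ) < c * ((2 : ℝ) ^ j * X)} ⊆
      {j ∈ Finset.range (J + 1) | p j ≤ K * 2 ^ j} := by
    intro j hj
    rw [Finset.mem_filter] at hj ⊢
    refine ⟨hj.1, ?_⟩
    have h2 : (p j : ℝ) ≤ K * 2 ^ j := by
      calc (p j : ℝ) ≤ c * ((2 : ℝ) ^ j * X) := hj.2.le
        _ = (c * X) * 2 ^ j := by ring
        _ ≤ K * 2 ^ j := mul_le_mul_of_nonneg_right hKge (by positivity)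
    exact_mod_cast h2
  have h2 : (#{j ∈ Finset.range (J + 1) | (p j : ℝ) < c * ((2 : ℝ) ^ j * X)} : ℝ) ≤
      (#{j ∈ Finset.range (J + 1) | p j ≤ K * 2 ^ j} : ℝ) := by
    exact_mod_cast Finset.card_le_card hsub
  refine (h2.trans h1).trans ?_
  have h3 : (K : ℝ) ^ 2 ≤ 4 * c ^ 2 * (J / Λ) := by
    have := pow_le_pow_left₀ (by linarith) hK2 2
    rw [← hX2]
    calc (K : ℝ) ^ 2 ≤ (2 * c * X) ^ 2 := this
      _ = _ := by ring
  have hlogK0 : 0 ≤ 1 + Real.log K := by have := Real.log_nonneg hKR; linarith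
  calc A * ((K : ℝ) ^ 2 * (1 + Real.log K)) ≤ A * (4 * c ^ 2 * (J / Λ) * (3 / 2 * Λ)) := by
        apply mul_le_mul_of_nonneg_left _ hA
        exact mul_le_mul h3 hlogK hlogK0 (by positivity)
    _ = (6 * A * c ^ 2) * J := by
        have : Λ ≠ 0 := by linarith
        field_simp
        ring
    _ ≤ ε * J := mul_le_mul_of_nonneg_right hc4 hJ0.le

/-- **Block complexity at almost all dyadic scales**, all bases. -/
theorem block_most (ξ : ℝ) (hξ : IsAlgebraic ℚ ξ) (hirr : Irrational ξ) (ε : ℝ) (hε : 0 < ε) :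
    ∃ c : ℝ, 0 < c ∧ ∃ J₀ : ℕ, ∀ b : ℕ, 2 ≤ b → ∀ J ≥ J₀,
      (#{j ∈ Finset.range (J + 1) | ((Set.range (blk b ξ (2 ^ j))).ncard : ℝ) <
        c * ((2 : ℝ) ^ j * ((J : ℝ) / Real.log J) ^ (1 / 2 : ℝ))} : ℝ) ≤ ε * J := by
  classical
  obtain ⟨A, hA, hthin⟩ := thinR 2 ξ hξ hirr
  obtain ⟨c, hc, J₀, h⟩ := few_bad A hA ε hε
  refine ⟨c, hc, J₀, fun b hb J hJ => h J hJ (fun j => (Set.range (blk b ξ (2 ^ j))).ncard) ?_⟩
  intro K hK
  have hKR : (1 : ℝ) ≤ K := by exact_mod_cast hK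
  have hT := hthin b hb K hKR
    ({j ∈ Finset.range (J + 1) | (Set.range (blk b ξ (2 ^ j))).ncard ≤ K * 2 ^ j}.image
      (fun j => 2 ^ j)) ?_ ?_
  · rw [Finset.card_image_of_injective _ (Nat.pow_right_injective (le_refl 2))] at hT
    exact hT
  · constructor
    · intro L hL
      obtain ⟨j, _, rfl⟩ := Finset.mem_image.mp hL
      exact Nat.one_le_two_pow
    · intro L hL L' hL' hlt
      obtain ⟨j, _, rfl⟩ := Finset.mem_image.mp hL
      obtain ⟨j', _, rfl⟩ := Finset.mem_image.mp hL'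
      have h3 : j < j' := (Nat.pow_lt_pow_iff_right (by norm_num)).mp hlt
      calc 2 * 2 ^ j = 2 ^ (j + 1) := by rw [pow_succ]; ring
        _ ≤ 2 ^ j' := Nat.pow_le_pow_right (by norm_num) h3
  · intro L hL
    obtain ⟨j, hj, rfl⟩ := Finset.mem_image.mp hL
    exact depR_of_few hb ξ _ K (Finset.mem_filter.mp hj).2

/-- **Block complexity**, all bases. -/
theorem block_some (ξ : ℝ) (hξ : IsAlgebraic ℚ ξ) (hirr : Irrational ξ) :
    ∃ c : ℝ, 0 < c ∧ ∃ N₀ : ℕ, ∀ b : ℕ, 2 ≤ b → ∀ N ≥ N₀, ∃ n : ℕ, n ≤ N ∧ N < n ^ 2 ∧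
      c * (n * (Real.log N / Real.log (Real.log N)) ^ (1 / 2 : ℝ)) ≤
        (Set.range (blk b ξ n)).ncard := by
  classical
  obtain ⟨c, hc, J₀, h⟩ := block_most ξ hξ hirr (1 / 4) (by norm_num)
  refine ⟨c / 2, by positivity, max (2 ^ (J₀ + 1)) 256, ?_⟩
  intro b hb N hN
  have hN1 : 2 ^ (J₀ + 1) ≤ N := (le_max_left _ _).trans hN
  have hN2 : 256 ≤ N := (le_max_right _ _).trans hN
  have hN0 : N ≠ 0 := by omega
  obtain ⟨J, hJ⟩ : ∃ J, J = Nat.log 2 N := ⟨_, rfl⟩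
  have hJN : 2 ^ J ≤ N := by rw [hJ]; exact Nat.pow_log_le_self 2 hN0
  have hJN' : N < 2 ^ (J + 1) := by rw [hJ]; exact Nat.lt_pow_succ_log_self (by norm_num) N
  have hJJ : J₀ ≤ J := by
    have h1 : 2 ^ (J₀ + 1) < 2 ^ (J + 1) := hN1.trans_lt hJN'
    have := (Nat.pow_lt_pow_iff_right (by norm_num : 1 < 2)).mp h1
    omega
  have hJ8 : 8 ≤ J := by
    have h1 : 2 ^ 8 < 2 ^ (J + 1) := lt_of_le_of_lt (by norm_num; exact hN2) hJN'
    have := (Nat.pow_lt_pow_iff_right (by norm_num : 1 < 2)).mp h1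
    omega
  have hcard := h b hb J hJJ
  obtain ⟨Bad, hBad⟩ : ∃ Bad, Bad = {j ∈ Finset.range (J + 1) |
    ((Set.range (blk b ξ (2 ^ j))).ncard : ℝ) <
      c * ((2 : ℝ) ^ j * ((J : ℝ) / Real.log J) ^ (1 / 2 : ℝ))} := ⟨_, rfl⟩
  rw [← hBad] at hcard
  obtain ⟨j, hj1, hj2, hj3⟩ : ∃ j, J / 2 < j ∧ j ≤ J ∧ j ∉ Bad := by
    by_contra hcon
    push Not at hcon
    have hsub : Finset.Ioc (J / 2) J ⊆ Bad := by
      intro j hj
      rw [Finset.mem_Ioc] at hj
      exact hcon j hj.1 hj.2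
    have h1 := Finset.card_le_card hsub
    rw [Nat.card_Ioc] at h1
    have h2 : J ≤ 2 * #Bad := by omega
    have h3 : (J : ℝ) ≤ 2 * #Bad := by exact_mod_cast h2
    have h4 : (8 : ℝ) ≤ J := by exact_mod_cast hJ8
    linarith
  have hgood : c * ((2 : ℝ) ^ j * ((J : ℝ) / Real.log J) ^ (1 / 2 : ℝ)) ≤
      ((Set.range (blk b ξ (2 ^ j))).ncard : ℝ) := by
    by_contra hcon
    push Not at hcon
    apply hj3
    rw [hBad, Finset.mem_filter, Finset.mem_range]
    exact ⟨by omega, hcon⟩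
  refine ⟨2 ^ j, (Nat.pow_le_pow_right (by norm_num) hj2).trans hJN, ?_, ?_⟩
  · rw [← pow_mul]
    exact hJN'.trans_le (Nat.pow_le_pow_right (by norm_num) (by omega))
  · -- comparison of the two functions
    have hJ8R : (8 : ℝ) ≤ J := by exact_mod_cast hJ8
    have hNR : (256 : ℝ) ≤ N := by exact_mod_cast hN2
    obtain ⟨L, hL⟩ : ∃ L, L = Real.log N := ⟨_, rfl⟩
    have hlog2a := Real.log_two_gt_d9
    have hlog2b := Real.log_two_lt_d9
    have hL1 : (J : ℝ) * Real.log 2 ≤ L := by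
      have h1 : (2 : ℝ) ^ J ≤ N := by exact_mod_cast hJN
      have h2 := Real.log_le_log (by positivity) h1
      rwa [Real.log_pow, ← hL] at h2
    have hL2 : L ≤ (J + 1) * Real.log 2 := by
      have h1 : (N : ℝ) ≤ 2 ^ (J + 1) := by exact_mod_cast hJN'.le
      have h2 := Real.log_le_log (by linarith) h1
      rw [Real.log_pow, ← hL] at h2
      push_cast at h2
      exact h2
    have hLJ : L ≤ J := by
      have h1 : ((J : ℝ) + 1) * Real.log 2 ≤ (J + 1) * 0.7 :=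
        mul_le_mul_of_nonneg_left (by linarith) (by linarith)
      linarith
    have hJL : (J : ℝ) ≤ 2 * L := by
      have h1 : (J : ℝ) * 0.5 ≤ J * Real.log 2 := mul_le_mul_of_nonneg_left (by linarith) (by linarith)
      linarith
    have hL4 : 4 ≤ L := by linarith
    have hLL : 1 < Real.log L := by
      rw [Real.lt_log_iff_exp_lt (by linarith)]
      have := Real.exp_one_lt_d9
      linarith
    have hlogJ : Real.log J ≤ 2 * Real.log L := by
      have h1 : Real.log J ≤ Real.log (2 * L) := Real.log_le_log (by linarith) hJL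
      rw [Real.log_mul (by norm_num) (by linarith)] at h1
      linarith
    have hlogJ0 : 0 < Real.log J := Real.log_pos (by linarith)
    have hratio : (1 / 4) * (L / Real.log L) ≤ (J : ℝ) / Real.log J := by
      rw [← mul_div_assoc, div_le_div_iff₀ (by linarith) hlogJ0]
      nlinarith
    have hroot : 1 / 2 * (L / Real.log L) ^ (1 / 2 : ℝ) ≤ ((J : ℝ) / Real.log J) ^ (1 / 2 : ℝ) := by
      have h1 := Real.rpow_le_rpow (by positivity) hratio (by norm_num : (0 : ℝ) ≤ 1 / 2)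
      rw [Real.mul_rpow (by norm_num) (by positivity)] at h1
      have h2 : ((1 / 4 : ℝ)) ^ (1 / 2 : ℝ) = 1 / 2 := by
        rw [show (1 / 4 : ℝ) = (1 / 2) ^ (2 : ℝ) by norm_num, ← Real.rpow_mul (by norm_num)]
        norm_num
      rwa [h2] at h1
    rw [← hL]
    push_cast
    refine le_trans ?_ hgood
    calc c / 2 * ((2 : ℝ) ^ j * (L / Real.log L) ^ (1 / 2 : ℝ)) =
          c * ((2 : ℝ) ^ j * (1 / 2 * (L / Real.log L) ^ (1 / 2 : ℝ))) := by ring
      _ ≤ _ := by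
          apply mul_le_mul_of_nonneg_left _ hc.le
          exact mul_le_mul_of_nonneg_left hroot (by positivity)

end Pool.Agent.H723.QR
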