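import Mathlib
import Pool.Agent.H723.QR.BlockR

/-! Block complexity for almost all lengths, in the sense of logarithmic density. -/

set_option autoImplicit false

open Finset

namespace Pool.Agent.H723.QR

open Pool.Agent.H723.QP

/-- the number of different blocks increases with the length -/
theorem blk_mono {b : ℕ} (hb : 2 ≤ b) (ξ : ℝ) {m n : ℕ} (h : m ≤ n) :
    (Set.range (blk b ξ m)).ncard ≤ (Set.range (blk b ξ n)).ncard := by
  have h1 : Set.range (blk b ξ m) =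
      (fun (w : Fin n → ℤ) (i : Fin m) => w (Fin.castLE h i)) '' Set.range (blk b ξ n) := by
    rw [← Set.range_comp]
    rfl
  rw [h1]
  exact Set.ncard_image_le (blk_finite hb ξ n)

/-- the comparison of the two functions -/
theorem block_cmp {N J : ℕ} (hJN : 2 ^ J ≤ N) (hJN' : N < 2 ^ (J + 1)) (hJ8 : 8 ≤ J) :
    (J : ℝ) ≤ 2 * Real.log N ∧ 0 ≤ (Real.log N / Real.log (Real.log N)) ^ (1 / 2 : ℝ) ∧
      (Real.log N / Real.log (Real.log N)) ^ (1 / 2 : ℝ) ≤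
        2 * ((J : ℝ) / Real.log J) ^ (1 / 2 : ℝ) := by
  have hJ8R : (8 : ℝ) ≤ J := by exact_mod_cast hJ8
  obtain ⟨L, hL⟩ : ∃ L, L = Real.log N := ⟨_, rfl⟩
  have hlog2a := Real.log_two_gt_d9
  have hlog2b := Real.log_two_lt_d9
  have hL1 : (J : ℝ) * Real.log 2 ≤ L := by
    have h1 : (2 : ℝ) ^ J ≤ N := by exact_mod_cast hJN
    have h2 := Real.log_le_log (by positivity) h1
    rwa [Real.log_pow, ← hL] at h2
  have hJL : (J : ℝ) ≤ 2 * L := by
    have h1 : (J : ℝ) * 0.5 ≤ J * Real.log 2 :=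
      mul_le_mul_of_nonneg_left (by linarith) (by linarith)
    linarith
  have hL2 : L ≤ (J + 1) * Real.log 2 := by
    have h1 : (N : ℝ) ≤ 2 ^ (J + 1) := by exact_mod_cast hJN'.le
    have h0 : (0 : ℝ) < N := by
      have : (0 : ℝ) < 2 ^ J := by positivity
      have h3 : (2 : ℝ) ^ J ≤ N := by exact_mod_cast hJN
      linarith
    have h2 := Real.log_le_log h0 h1
    rw [Real.log_pow, ← hL] at h2
    push_cast at h2
    exact h2
  have hLJ : L ≤ J := by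
    have h1 : ((J : ℝ) + 1) * Real.log 2 ≤ (J + 1) * 0.7 :=
      mul_le_mul_of_nonneg_left (by linarith) (by linarith)
    linarith
  have hL4 : 4 ≤ L := by linarith
  have hLL : 1 < Real.log L := by
    rw [Real.lt_log_iff_exp_lt (by linarith)]
    have := Real.exp_one_lt_d9
    linarith
  have hlogJ : Real.log J ≤ 2 * Real.log L := by
    have h1 : Real.log J ≤ Real.log (2 * L) := Real.log_le_log (by linarith) hJL
    rw [Real.log_mul (by norm_num) (by linarith)] at h1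
    linarith
  have hlogJ0 : 0 < Real.log J := Real.log_pos (by linarith)
  have hratio : (1 / 4) * (L / Real.log L) ≤ (J : ℝ) / Real.log J := by
    rw [← mul_div_assoc, div_le_div_iff₀ (by linarith) hlogJ0]
    nlinarith
  have hroot : 1 / 2 * (L / Real.log L) ^ (1 / 2 : ℝ) ≤ ((J : ℝ) / Real.log J) ^ (1 / 2 : ℝ) := by
    have h1 := Real.rpow_le_rpow (by positivity) hratio (by norm_num : (0 : ℝ) ≤ 1 / 2)
    rw [Real.mul_rpow (by norm_num) (by positivity)] at h1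
    have h2 : ((1 / 4 : ℝ)) ^ (1 / 2 : ℝ) = 1 / 2 := by
      rw [show (1 / 4 : ℝ) = (1 / 2) ^ (2 : ℝ) by norm_num, ← Real.rpow_mul (by norm_num)]
      norm_num
    rwa [h2] at h1
  rw [← hL]
  refine ⟨hJL, by positivity, by linarith⟩

/-- the sum of `1 / n` over a dyadic interval is at most one -/
theorem sum_inv_fiber (S : Finset ℕ) (j : ℕ) (h : ∀ n ∈ S, 2 ^ j ≤ n ∧ n < 2 ^ (j + 1)) :
    ∑ n ∈ S, (1 : ℝ) / n ≤ 1 := by
  have h1 : ∀ n ∈ S, (1 : ℝ) / n ≤ 1 / 2 ^ j := by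
    intro n hn
    have h2 : (2 : ℝ) ^ j ≤ n := by exact_mod_cast (h n hn).1
    exact one_div_le_one_div_of_le (by positivity) h2
  have h2 := Finset.sum_le_card_nsmul S _ _ h1
  have h3 : S.card ≤ 2 ^ j := by
    have h4 : S ⊆ Finset.Ico (2 ^ j) (2 ^ (j + 1)) := fun n hn => Finset.mem_Ico.2 (h n hn)
    have h5 := Finset.card_le_card h4
    rw [Nat.card_Ico, pow_succ] at h5
    omega
  have h4 : (S.card : ℝ) ≤ 2 ^ j := by exact_mod_cast h3
  rw [nsmul_eq_mul] at h2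
  have h5 : (0 : ℝ) < 2 ^ j := by positivity
  calc ∑ n ∈ S, (1 : ℝ) / n ≤ S.card * (1 / 2 ^ j) := h2
    _ ≤ 2 ^ j * (1 / 2 ^ j) := mul_le_mul_of_nonneg_right h4 (by positivity)
    _ = 1 := by field_simp

/-- **Block complexity for almost all lengths**, all bases: the lengths with few blocks have small
logarithmic measure. -/
theorem block_log (ξ : ℝ) (hξ : IsAlgebraic ℚ ξ) (hirr : Irrational ξ) (ε : ℝ) (hε : 0 < ε) :
    ∃ c : ℝ, 0 < c ∧ ∃ N₀ : ℕ, ∀ b : ℕ, 2 ≤ b → ∀ N ≥ N₀,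
      ∑ n ∈ {n ∈ Finset.Icc 1 N | ((Set.range (blk b ξ n)).ncard : ℝ) <
        c * (n * (Real.log N / Real.log (Real.log N)) ^ (1 / 2 : ℝ))}, (1 : ℝ) / n ≤
        ε * Real.log N := by
  classical
  obtain ⟨c, hc, J₀, h⟩ := block_most ξ hξ hirr (ε / 2) (by positivity)
  refine ⟨c / 4, by positivity, max (2 ^ (J₀ + 1)) 256, ?_⟩
  intro b hb N hN
  have hN1 : 2 ^ (J₀ + 1) ≤ N := (le_max_left _ _).trans hN
  have hN2 : 256 ≤ N := (le_max_right _ _).trans hN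
  have hN0 : N ≠ 0 := by omega
  obtain ⟨J, hJ⟩ : ∃ J, J = Nat.log 2 N := ⟨_, rfl⟩
  have hJN : 2 ^ J ≤ N := by rw [hJ]; exact Nat.pow_log_le_self 2 hN0
  have hJN' : N < 2 ^ (J + 1) := by rw [hJ]; exact Nat.lt_pow_succ_log_self (by norm_num) N
  have hJJ : J₀ ≤ J := by
    have h1 : 2 ^ (J₀ + 1) < 2 ^ (J + 1) := hN1.trans_lt hJN'
    have := (Nat.pow_lt_pow_iff_right (by norm_num : 1 < 2)).mp h1
    omega
  have hJ8 : 8 ≤ J := by
    have h1 : 2 ^ 8 < 2 ^ (J + 1) := lt_of_le_of_lt (by norm_num; exact hN2) hJN'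
    have := (Nat.pow_lt_pow_iff_right (by norm_num : 1 < 2)).mp h1
    omega
  obtain ⟨hJL, hX0, hXY⟩ := block_cmp hJN hJN' hJ8
  have hcard := h b hb J hJJ
  obtain ⟨X, hX⟩ : ∃ X : ℝ, X = (Real.log N / Real.log (Real.log N)) ^ (1 / 2 : ℝ) := ⟨_, rfl⟩
  obtain ⟨Y, hY⟩ : ∃ Y : ℝ, Y = ((J : ℝ) / Real.log J) ^ (1 / 2 : ℝ) := ⟨_, rfl⟩
  rw [← hX] at hX0
  rw [← hX, ← hY] at hXY
  rw [← hY] at hcard
  rw [← hX]
  obtain ⟨Bad, hBad⟩ : ∃ Bad, Bad = {j ∈ Finset.range (J + 1) |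
    ((Set.range (blk b ξ (2 ^ j))).ncard : ℝ) < c * ((2 : ℝ) ^ j * Y)} := ⟨_, rfl⟩
  rw [← hBad] at hcard
  obtain ⟨S, hS⟩ : ∃ S, S = {n ∈ Finset.Icc 1 N | ((Set.range (blk b ξ n)).ncard : ℝ) <
        c / 4 * (n * X)} := ⟨_, rfl⟩
  rw [← hS]
  have hmem : ∀ n ∈ S, 2 ^ (Nat.log 2 n) ≤ n ∧ n < 2 ^ (Nat.log 2 n + 1) := by
    intro n hn
    rw [hS, Finset.mem_filter, Finset.mem_Icc] at hn
    exact ⟨Nat.pow_log_le_self 2 (by omega), Nat.lt_pow_succ_log_self (by norm_num) n⟩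
  have hmaps : ∀ n ∈ S, Nat.log 2 n ∈ Bad := by
    intro n hn
    obtain ⟨h1, h2⟩ := hmem n hn
    rw [hS, Finset.mem_filter, Finset.mem_Icc] at hn
    obtain ⟨⟨hn1, hnN⟩, hn2⟩ := hn
    rw [hBad, Finset.mem_filter, Finset.mem_range]
    refine ⟨?_, ?_⟩
    · have h3 : Nat.log 2 n ≤ J := by
        rw [hJ]
        exact Nat.log_mono_right hnN
      omega
    · have h3 : ((Set.range (blk b ξ (2 ^ Nat.log 2 n))).ncard : ℝ) ≤
          ((Set.range (blk b ξ n)).ncard : ℝ) := by exact_mod_cast blk_mono hb ξ h1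
      have h4 : (n : ℝ) ≤ 2 * 2 ^ Nat.log 2 n := by
        have h5 : n ≤ 2 * 2 ^ Nat.log 2 n := by
          rw [pow_succ] at h2
          omega
        exact_mod_cast h5
      have h5 : (n : ℝ) * X ≤ (2 * 2 ^ Nat.log 2 n) * (2 * Y) :=
        mul_le_mul h4 hXY hX0 (by positivity)
      calc ((Set.range (blk b ξ (2 ^ Nat.log 2 n))).ncard : ℝ) ≤
            ((Set.range (blk b ξ n)).ncard : ℝ) := h3
        _ < c / 4 * (n * X) := hn2
        _ ≤ c / 4 * ((2 * 2 ^ Nat.log 2 n) * (2 * Y)) :=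
            mul_le_mul_of_nonneg_left h5 (by positivity)
        _ = c * ((2 : ℝ) ^ Nat.log 2 n * Y) := by ring
  have hsum : ∑ n ∈ S, (1 : ℝ) / n ≤ (#Bad : ℝ) := by
    rw [← Finset.sum_fiberwise_of_maps_to hmaps (fun n : ℕ => (1 : ℝ) / n)]
    have h1 : ∀ j ∈ Bad, ∑ n ∈ S with Nat.log 2 n = j, (1 : ℝ) / n ≤ 1 := by
      intro j _
      refine sum_inv_fiber _ j fun n hn => ?_
      rw [Finset.mem_filter] at hn
      have h2 := hmem n hn.1
      rw [hn.2] at h2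
      exact h2
    refine (Finset.sum_le_sum h1).trans ?_
    rw [Finset.sum_const, nsmul_eq_mul, mul_one]
  calc ∑ n ∈ S, (1 : ℝ) / n ≤ (#Bad : ℝ) := hsum
    _ ≤ ε / 2 * J := hcard
    _ ≤ ε / 2 * (2 * Real.log N) := mul_le_mul_of_nonneg_left hJL (by positivity)
    _ = ε * Real.log N := by ring

end Pool.Agent.H723.QR
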