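import Mathlib

/-! A comparison of functions. -/

set_option autoImplicit false

open Finset

namespace Pool.Agent.H723.QR

/-- from the sharp form to powers of the logarithm -/
theorem theta_of_log (c : ℝ) (hc : 0 < c) (θ : ℝ) (hθ0 : 0 ≤ θ) (hθ : θ < 1 / 2) :
    ∃ N₀ : ℕ, ∀ N : ℕ, N₀ ≤ N → ∀ n : ℕ, 1 ≤ n → n ≤ N →
      (n : ℝ) * Real.log n ^ θ ≤ c * (n * (Real.log N / Real.log (Real.log N)) ^ (1 / 2 : ℝ)) := by
  have hr : 0 < 1 - 2 * θ := by linarith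
  have h1 := (isLittleO_log_rpow_atTop hr).bound (show 0 < c ^ 2 by positivity)
  have h2 : ∀ᶠ x : ℝ in Filter.atTop, 1 < x := Filter.eventually_gt_atTop 1
  have h3 := (Real.tendsto_log_atTop.comp tendsto_natCast_atTop_atTop).eventually (h1.and h2)
  obtain ⟨N₀, hN₀⟩ := Filter.eventually_atTop.1 h3
  refine ⟨N₀, fun N hN n hn hnN => ?_⟩
  obtain ⟨h4, h5⟩ := hN₀ N hN
  simp only [Function.comp_apply] at h4 h5
  obtain ⟨x, hx⟩ : ∃ x : ℝ, x = Real.log N := ⟨_, rfl⟩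
  rw [← hx] at h4 h5 ⊢
  have hx0 : 0 < x := by linarith
  have hlx : 0 < Real.log x := Real.log_pos h5
  rw [Real.norm_of_nonneg hlx.le, Real.norm_of_nonneg (Real.rpow_nonneg hx0.le _)] at h4
  have hn0 : (0 : ℝ) < n := by exact_mod_cast hn
  have hlog : Real.log n ≤ x := by
    rw [hx]
    exact Real.log_le_log hn0 (by exact_mod_cast hnN)
  have hlog0 : 0 ≤ Real.log n := Real.log_nonneg (by exact_mod_cast hn)
  have h6 : Real.log n ^ θ ≤ x ^ θ := Real.rpow_le_rpow hlog0 hlog hθ0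
  have h7 : (x ^ θ / c) ^ 2 ≤ x / Real.log x := by
    rw [le_div_iff₀ hlx, div_pow, ← Real.rpow_natCast (x ^ θ) 2, ← Real.rpow_mul hx0.le]
    have e : x ^ (θ * ((2 : ℕ) : ℝ)) * x ^ (1 - 2 * θ) = x := by
      rw [← Real.rpow_add hx0]
      have : θ * ((2 : ℕ) : ℝ) + (1 - 2 * θ) = 1 := by push_cast; ring
      rw [this, Real.rpow_one]
    have h8 : x ^ (θ * ((2 : ℕ) : ℝ)) / c ^ 2 * Real.log x ≤
        x ^ (θ * ((2 : ℕ) : ℝ)) / c ^ 2 * (c ^ 2 * x ^ (1 - 2 * θ)) :=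
      mul_le_mul_of_nonneg_left h4 (by positivity)
    refine h8.trans (le_of_eq ?_)
    rw [← mul_assoc, div_mul_cancel₀ _ (by positivity), e]
  have h9 : x ^ θ / c ≤ (x / Real.log x) ^ (1 / 2 : ℝ) := by
    rw [← Real.sqrt_eq_rpow]
    exact Real.le_sqrt_of_sq_le h7
  have h10 : x ^ θ ≤ c * (x / Real.log x) ^ (1 / 2 : ℝ) := by
    rw [div_le_iff₀ hc] at h9
    linarith
  calc (n : ℝ) * Real.log n ^ θ ≤ n * (c * (x / Real.log x) ^ (1 / 2 : ℝ)) :=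
        mul_le_mul_of_nonneg_left (h6.trans h10) hn0.le
    _ = _ := by ring

end Pool.Agent.H723.QR
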